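import Pool.Agent.Helper310.Contra2.Invol

/-!
# The signed count of colourings modulo `q + 2`
-/

open Finset

namespace Contra2

/-- The three ways of joining up the four half-edges at a vertex. -/
inductive Tr | X | Y | Z
  deriving DecidableEq

instance : Fintype Tr := ⟨{.X, .Y, .Z}, by intro x; cases x <;> decide⟩

/-- Half-edges: vertex, circuit, outgoing or not. -/
abbrev HE (V : Type*) := V × Bool × Bool

/-- The partner of a half-edge under a transition. -/
def flip : Tr → Bool × Bool → Bool × Bool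
  | .X, q => (q.1, !q.2)
  | .Y, q => (!q.1, q.2)
  | .Z, q => (!q.1, !q.2)

@[simp] lemma flip_flip (t : Tr) (q : Bool × Bool) : flip t (flip t q) = q := by
  cases t <;> rcases q with ⟨a, b⟩ <;> cases a <;> cases b <;> rfl

lemma flip_ne (t : Tr) (q : Bool × Bool) : flip t q ≠ q := by
  cases t <;> rcases q with ⟨a, b⟩ <;> cases a <;> cases b <;> decide

section

variable {V : Type*} {q : ℕ} (σ : Bool → Equiv.Perm V)

/-- The two ends of an edge. -/
def epsFun (h : HE V) : HE V :=
  if h.2.2 = true then (σ h.2.1 h.1, h.2.1, false) else ((σ h.2.1).symm h.1, h.2.1, true)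

lemma epsFun_epsFun (h : HE V) : epsFun σ (epsFun σ h) = h := by
  obtain ⟨v, i, d⟩ := h
  cases d <;> simp [epsFun]

/-- The two ends of an edge, as a permutation. -/
def eps : Equiv.Perm (HE V) := ⟨epsFun σ, epsFun σ, epsFun_epsFun σ, epsFun_epsFun σ⟩

lemma eps_eps (h : HE V) : eps σ (eps σ h) = h := epsFun_epsFun σ h

lemma eps_ne (h : HE V) : eps σ h ≠ h := by
  obtain ⟨v, i, d⟩ := h
  intro hh
  have : (epsFun σ (v, i, d)).2.2 = d := congrArg (fun x : HE V => x.2.2) hh
  cases d <;> simp [epsFun] at this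

@[simp] lemma eps_out (v : V) (i : Bool) : eps σ (v, i, true) = (σ i v, i, false) := by
  show epsFun σ (v, i, true) = _
  simp [epsFun]

@[simp] lemma eps_in (v : V) (i : Bool) : eps σ (v, i, false) = ((σ i).symm v, i, true) := by
  show epsFun σ (v, i, false) = _
  simp [epsFun]

/-- The transition constraint at `v`. -/
def Con (t : Tr) (v : V) (f : HE V → ZMod q) : Prop := ∀ p, f (v, flip t p) = f (v, p)

instance (t : Tr) (v : V) (f : HE V → ZMod q) : Decidable (Con t v f) := by
  unfold Con; infer_instance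

/-- Indicator of the constraint. -/
def ind (t : Tr) (v : V) (f : HE V → ZMod q) : ℤ := if Con t v f then 1 else 0

variable [DecidableEq V]

/-- The joining of the half-edges away from `v₀`. -/
def tauFun (v₀ : V) (T : {v // v ≠ v₀} → Tr) (h : HE V) : HE V :=
  if hv : h.1 ≠ v₀ then (h.1, flip (T ⟨h.1, hv⟩) h.2) else h

lemma tauFun_tauFun (v₀ : V) (T : {v // v ≠ v₀} → Tr) (h : HE V) :
    tauFun v₀ T (tauFun v₀ T h) = h := by
  obtain ⟨v, q⟩ := h
  by_cases hv : v ≠ v₀
  · have h1 : tauFun v₀ T (v, q) = (v, flip (T ⟨v, hv⟩) q) := by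
      simp only [tauFun]; rw [dif_pos hv]
    rw [h1]
    simp only [tauFun]; rw [dif_pos hv, flip_flip]
  · have h1 : tauFun v₀ T (v, q) = (v, q) := by
      simp only [tauFun]; rw [dif_neg hv]
    rw [h1, h1]

/-- The joining as a permutation. -/
def tau (v₀ : V) (T : {v // v ≠ v₀} → Tr) : Equiv.Perm (HE V) :=
  ⟨tauFun v₀ T, tauFun v₀ T, tauFun_tauFun v₀ T, tauFun_tauFun v₀ T⟩

lemma tau_ne {v₀ : V} (T : {v // v ≠ v₀} → Tr) {v : V} (hv : v ≠ v₀) (q : Bool × Bool) :
    tau v₀ T (v, q) = (v, flip (T ⟨v, hv⟩) q) := by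
  show tauFun v₀ T (v, q) = _
  simp only [tauFun]; rw [dif_pos hv]

lemma tau_self {v₀ : V} (T : {v // v ≠ v₀} → Tr) (q : Bool × Bool) :
    tau v₀ T (v₀, q) = (v₀, q) := by
  show tauFun v₀ T (v₀, q) = _
  simp only [tauFun]; rw [dif_neg (by simp)]

lemma tau_fix {v₀ : V} (T : {v // v ≠ v₀} → Tr) (h : HE V) :
    tau v₀ T h = h ↔ h = (v₀, false, false) ∨ h = (v₀, false, true) ∨
      h = (v₀, true, false) ∨ h = (v₀, true, true) := by
  obtain ⟨v, q⟩ := h
  by_cases hv : v ≠ v₀
  · rw [tau_ne T hv]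
    constructor
    · intro h
      exact absurd (congrArg Prod.snd h) (flip_ne _ _)
    · rintro (h | h | h | h) <;> exact absurd (congrArg Prod.fst h) hv
  · push Not at hv
    subst hv
    rw [tau_self]
    simp only [true_iff, Prod.mk.injEq, true_and]
    rcases q with ⟨a, b⟩
    cases a <;> cases b <;> simp

lemma resp_iff {v₀ : V} (T : {v // v ≠ v₀} → Tr) (f : HE V → ZMod q) :
    Resp (eps σ) (tau v₀ T) f ↔
      (∀ h, f (eps σ h) = f h) ∧ ∀ v : {v // v ≠ v₀}, Con (T v) v.1 f := by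
  unfold Resp
  refine and_congr_right fun _ => ?_
  constructor
  · intro h v q
    have := h (v.1, q)
    rwa [tau_ne T v.2] at this
  · rintro h ⟨v, q⟩
    by_cases hv : v ≠ v₀
    · rw [tau_ne T hv]; exact h ⟨v, hv⟩ q
    · push Not at hv; subst hv; rw [tau_self]

variable [Fintype V] (q) [NeZero q]

/-- All edge colourings with colours in `ZMod q`. -/
def Col : Finset (HE V → ZMod q) := Finset.univ.filter (fun f => ∀ h, f (eps σ h) = f h)

lemma sum_ind_eq_NN {v₀ : V} (T : {v // v ≠ v₀} → Tr) (t : Tr) (p₁ p₂ p₃ p₄ : Bool × Bool)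
    (hpq : ∀ f : HE V → ZMod q, Con t v₀ f ↔
      f (v₀, p₁) = f (v₀, p₂) ∧ f (v₀, p₃) = f (v₀, p₄)) :
    ∑ f ∈ Col q σ, ind t v₀ f * ∏ v : {v // v ≠ v₀}, ind (T v) v.1 f
      = (NN q (eps σ) (tau v₀ T) (v₀, p₁) (v₀, p₂) (v₀, p₃) (v₀, p₄) : ℤ) := by
  classical
  have h1 : ∀ f : HE V → ZMod q, ind t v₀ f * ∏ v : {v // v ≠ v₀}, ind (T v) v.1 f =
      if Con t v₀ f ∧ ∀ v : {v // v ≠ v₀}, Con (T v) v.1 f then 1 else 0 := by
    intro f
    unfold ind
    rw [Fintype.prod_boole]
    by_cases h1 : Con t v₀ f <;> by_cases h2 : ∀ v : {v // v ≠ v₀}, Con (T v) v.1 f <;>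
      simp [h1, h2]
  rw [Finset.sum_congr rfl (fun f _ => h1 f), Finset.sum_boole]
  unfold NN Col
  rw [Finset.filter_filter]
  congr 2
  ext f
  simp only [mem_filter, mem_univ, true_and, resp_iff, hpq]
  tauto

lemma lemmaA' (v₀ : V) (T : {v // v ≠ v₀} → Tr) :
    ((q : ℤ) + 2) ∣ ∑ f ∈ Col q σ, (∑ t, ind t v₀ f) * ∏ v : {v // v ≠ v₀}, ind (T v) v.1 f := by
  have h0 : ∀ g : Tr → ℤ, ∑ t, g t = g .X + g .Y + g .Z := by
    intro g
    have : (Finset.univ : Finset Tr) = {.X, .Y, .Z} := by decide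
    rw [this, Finset.sum_insert (by decide), Finset.sum_insert (by decide),
      Finset.sum_singleton]
    ring
  have h1 : ∑ f ∈ Col q σ, (∑ t, ind t v₀ f) * ∏ v : {v // v ≠ v₀}, ind (T v) v.1 f
      = ∑ t, ∑ f ∈ Col q σ, ind t v₀ f * ∏ v : {v // v ≠ v₀}, ind (T v) v.1 f := by
    rw [Finset.sum_comm]
    apply Finset.sum_congr rfl
    intro f _
    rw [Finset.sum_mul]
  rw [h1, h0]
  rw [sum_ind_eq_NN q σ T .X (false, false) (false, true) (true, false) (true, true) ?_,
    sum_ind_eq_NN q σ T .Y (false, false) (true, false) (false, true) (true, true) ?_,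
    sum_ind_eq_NN q σ T .Z (false, false) (true, true) (false, true) (true, false) ?_]
  · have := four_fixed q (e := eps σ) (t := tau v₀ T) (a := (v₀, false, false))
      (b := (v₀, false, true)) (c := (v₀, true, false)) (d := (v₀, true, true))
      (tauFun_tauFun v₀ T) (eps_eps σ) (eps_ne σ) (by simp) (by simp) (by simp)
      (by simp) (by simp) (by simp) (tau_fix T)
    exact_mod_cast this
  all_goals
    intro f
    unfold Con
    constructor
    · intro h
      constructor
      · first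
          | exact (h (false, false)).symm
          | exact (h (false, true)).symm
      · first
          | exact (h (true, false)).symm
          | exact (h (false, true)).symm
    · rintro ⟨h1, h2⟩ ⟨a, b⟩
      cases a <;> cases b <;>
      first
        | exact h1
        | exact h1.symm
        | exact h2
        | exact h2.symm

/-- The weighted count. -/
def F (c : V → Tr → ℤ) : ℤ := ∑ f ∈ Col q σ, ∏ v, ∑ t, c v t * ind t v f

lemma lemmaA (v₀ : V) (c : V → Tr → ℤ) :
    ((q : ℤ) + 2) ∣ ∑ f ∈ Col q σ, (∑ t, ind t v₀ f) *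
      ∏ v : {v // v ≠ v₀}, ∑ t, c v.1 t * ind t v.1 f := by
  have h1 : ∀ f : HE V → ZMod q, ∏ v : {v // v ≠ v₀}, ∑ t, c v.1 t * ind t v.1 f
      = ∑ T : {v // v ≠ v₀} → Tr, (∏ v, c v.1 (T v)) * ∏ v : {v // v ≠ v₀}, ind (T v) v.1 f := by
    intro f
    rw [Finset.prod_univ_sum, Fintype.piFinset_univ]
    apply Finset.sum_congr rfl
    intro T _
    rw [Finset.prod_mul_distrib]
  have h2 : ∑ f ∈ Col q σ, (∑ t, ind t v₀ f) *
      ∏ v : {v // v ≠ v₀}, ∑ t, c v.1 t * ind t v.1 f
      = ∑ T : {v // v ≠ v₀} → Tr, (∏ v, c v.1 (T v)) *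
        ∑ f ∈ Col q σ, (∑ t, ind t v₀ f) * ∏ v : {v // v ≠ v₀}, ind (T v) v.1 f := by
    simp_rw [h1, Finset.mul_sum]
    rw [Finset.sum_comm]
    apply Finset.sum_congr rfl
    intro T _
    apply Finset.sum_congr rfl
    intro f _
    ring
  rw [h2]
  apply Finset.dvd_sum
  intro T _
  exact Dvd.dvd.mul_left (lemmaA' q σ v₀ T) _

lemma F_update (c c' : V → Tr → ℤ) (v₀ : V) (h : ∀ v, v ≠ v₀ → c' v = c v)
    (h0 : ∀ t, c' v₀ t = c v₀ t + 1) : ((q : ℤ) + 2) ∣ F q σ c' - F q σ c := by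
  have h1 : F q σ c' - F q σ c = ∑ f ∈ Col q σ, (∑ t, ind t v₀ f) *
      ∏ v : {v // v ≠ v₀}, ∑ t, c v.1 t * ind t v.1 f := by
    unfold F
    rw [← Finset.sum_sub_distrib]
    apply Finset.sum_congr rfl
    intro f _
    rw [Fintype.prod_eq_mul_prod_subtype_ne _ v₀, Fintype.prod_eq_mul_prod_subtype_ne _ v₀]
    have h2 : ∏ v : {v // v ≠ v₀}, ∑ t, c' v.1 t * ind t v.1 f =
        ∏ v : {v // v ≠ v₀}, ∑ t, c v.1 t * ind t v.1 f := by
      apply Finset.prod_congr rfl
      intro v _
      rw [h v.1 v.2]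
    rw [h2, ← sub_mul, ← Finset.sum_sub_distrib]
    congr 1
    apply Finset.sum_congr rfl
    intro t _
    rw [h0]; ring
  rw [h1]
  exact lemmaA q σ v₀ c

/-- Replace all weights by weights larger by one. -/
lemma F_shift (c : V → Tr → ℤ) : ((q : ℤ) + 2) ∣ F q σ (fun v t => c v t + 1) - F q σ c := by
  classical
  have key : ∀ S : Finset V,
      ((q : ℤ) + 2) ∣ F q σ (fun v t => if v ∈ S then c v t + 1 else c v t) - F q σ c := by
    intro S
    induction S using Finset.induction_on with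
    | empty => simp
    | insert u S hu ih =>
      have h1 := F_update q σ (fun v t => if v ∈ S then c v t + 1 else c v t)
        (fun v t => if v ∈ insert u S then c v t + 1 else c v t) u
        (fun v hv => by funext t; simp [hv]) (fun t => by simp [hu])
      have := dvd_add h1 ih
      rwa [sub_add_sub_cancel] at this
  have := key Finset.univ
  simpa using this

end

end Contra2
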