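import Pool.Agent.Helper310.Contra2.Defs

/-!
# Number of cycles of a permutation, and multiplication by a transposition
-/

open Finset

namespace Contra2

variable {A : Type*}

lemma inv_sameCycle {β : Type*} {θ : Equiv.Perm A} {g : A → β} (hg : ∀ a, g (θ a) = g a) {a b : A}
    (h : θ.SameCycle a b) : g a = g b := by
  obtain ⟨i, rfl⟩ := h
  have h2 : ∀ y, g (θ⁻¹ y) = g y := fun y => by
    rw [← hg (θ⁻¹ y)]; simp
  induction i with
  | zero => simp
  | succ n ih => rw [add_comm, zpow_add, zpow_one, Equiv.Perm.mul_apply, hg, ih]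
  | pred n ih =>
    rw [sub_eq_add_neg, add_comm, zpow_add, zpow_neg_one, Equiv.Perm.mul_apply, h2, ih]

section

variable [Fintype A]

omit [Fintype A] in
lemma sameCycle_of_ncyc_eq_one {θ : Equiv.Perm A} (h : ncyc θ = 1) (a b : A) :
    θ.SameCycle a b := by
  unfold ncyc at h
  rw [Nat.card_eq_one_iff_unique] at h
  have := h.1
  exact Quotient.exact (Subsingleton.elim (Quotient.mk (Equiv.Perm.SameCycle.setoid θ) a)
    (Quotient.mk (Equiv.Perm.SameCycle.setoid θ) b))

lemma ncyc_pos [Nonempty A] (θ : Equiv.Perm A) : 0 < ncyc θ := by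
  unfold ncyc
  have : Nonempty (Quotient (Equiv.Perm.SameCycle.setoid θ)) :=
    ⟨Quotient.mk _ (Classical.arbitrary A)⟩
  exact Nat.card_pos

variable [DecidableEq A]

/-- Functions constant on the cycles. -/
lemma card_inv_eq (θ : Equiv.Perm A) (q : ℕ) [NeZero q] :
    (Finset.univ.filter (fun g : A → ZMod q => ∀ a, g (θ a) = g a)).card = q ^ ncyc θ := by
  classical
  have : Fintype (Quotient (Equiv.Perm.SameCycle.setoid θ)) := Fintype.ofFinite _
  have h1 : q ^ ncyc θ = Fintype.card (Quotient (Equiv.Perm.SameCycle.setoid θ) → ZMod q) := by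
    rw [Fintype.card_fun, ZMod.card, ncyc, Nat.card_eq_fintype_card]
  rw [h1, ← Finset.card_univ]
  symm
  apply Finset.card_bij (fun (G : Quotient (Equiv.Perm.SameCycle.setoid θ) → ZMod q) _ =>
    (fun a => G (Quotient.mk _ a)))
  · intro G _
    simp only [mem_filter, mem_univ, true_and]
    intro a
    congr 1
    apply Quotient.sound
    exact (Equiv.Perm.sameCycle_apply_left.2 (Equiv.Perm.SameCycle.refl θ a))
  · intro G _ G' _ h
    funext x
    induction x using Quotient.inductionOn with
    | _ a => exact congrFun h a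
  · intro g hg
    simp only [mem_filter, mem_univ, true_and] at hg
    refine ⟨Quotient.lift g (fun a b hab => inv_sameCycle hg hab), mem_univ _, rfl⟩

lemma ncyc_eq_one_of_const [Nonempty A] {θ : Equiv.Perm A}
    (h : ∀ g : A → ZMod 2, (∀ a, g (θ a) = g a) → ∀ a b, g a = g b) : ncyc θ = 1 := by
  classical
  unfold ncyc
  rw [Nat.card_eq_one_iff_unique]
  constructor
  · constructor
    intro x y
    induction x using Quotient.inductionOn with
    | _ a =>
    induction y using Quotient.inductionOn with
    | _ b =>
    apply Quotient.sound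
    have h1 := h (fun c => if θ.SameCycle a c then 1 else 0) (fun c => by
      simp only [Equiv.Perm.sameCycle_apply_right]) a b
    simp only [Equiv.Perm.SameCycle.refl, if_true] at h1
    by_contra h2
    have h3 : ¬ θ.SameCycle a b := h2
    rw [if_neg h3] at h1
    exact absurd h1 (by decide)
  · exact ⟨Quotient.mk _ (Classical.arbitrary A)⟩

lemma ncyc_ne_one_of_nonconst {β : Type*} {θ : Equiv.Perm A} {g : A → β} (hg : ∀ a, g (θ a) = g a)
    {a b : A} (h : g a ≠ g b) : ncyc θ ≠ 1 := fun h1 =>
  h (inv_sameCycle hg (sameCycle_of_ncyc_eq_one h1 a b))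

/-- Merging two cycles. -/
lemma ncyc_swap_merge {θ : Equiv.Perm A} {x y : A} (h : ¬ θ.SameCycle x y) :
    ncyc (Equiv.swap x y * θ) + 1 = ncyc θ := by
  classical
  have hxy : x ≠ y := fun h1 => h (h1 ▸ Equiv.Perm.SameCycle.refl θ x)
  have hxx : θ.SameCycle x x := Equiv.Perm.SameCycle.refl θ x
  -- invariant functions
  have key : ∀ f : A → ZMod 2, (∀ a, f ((Equiv.swap x y * θ) a) = f a) ↔
      (∀ a, f (θ a) = f a) ∧ f x = f y := by
    intro f
    constructor
    · intro hf
      -- walk along the cycle of `x`
      have hw : ∀ a, θ a ≠ x → θ a ≠ y → f (θ a) = f a := by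
        intro a h1 h2
        have := hf a
        rwa [Equiv.Perm.mul_apply, Equiv.swap_apply_of_ne_of_ne h1 h2] at this
      have hx : ∀ a, θ a = x → f y = f a := by
        intro a h1
        have := hf a
        rwa [Equiv.Perm.mul_apply, h1, Equiv.swap_apply_left] at this
      have hy : ∀ a, θ a = y → f x = f a := by
        intro a h1
        have := hf a
        rwa [Equiv.Perm.mul_apply, h1, Equiv.swap_apply_right] at this
      have hxy' : f x = f y := by
        have hind : ∀ k : ℕ, f ((θ ^ k) x) = f x ∨ f x = f y := by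
          intro k
          induction k with
          | zero => left; simp
          | succ k ih =>
            rcases ih with ih | ih
            · by_cases h1 : θ ((θ ^ k) x) = x
              · right
                rw [hx _ h1, ih]
              · left
                rw [pow_succ', Equiv.Perm.mul_apply, hw _ h1, ih]
                intro h2
                apply h
                refine ⟨(k + 1 : ℕ), ?_⟩
                rw [zpow_natCast, pow_succ', Equiv.Perm.mul_apply, h2]
            · right; exact ih
        obtain ⟨m, hm, hm'⟩ := isOfFinOrder_iff_pow_eq_one.1 (isOfFinOrder_of_finite θ)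
        rcases hind (m - 1) with h1 | h1
        · rw [hx ((θ ^ (m - 1)) x) (by
            rw [← Equiv.Perm.mul_apply, ← pow_succ', Nat.sub_add_cancel hm, hm']; rfl), h1]
        · exact h1
      refine ⟨fun a => ?_, hxy'⟩
      by_cases h1 : θ a = x
      · rw [h1, hxy', hx a h1]
      · by_cases h2 : θ a = y
        · rw [h2, ← hxy', hy a h2]
        · exact hw a h1 h2
    · rintro ⟨hf, hxy'⟩ a
      rw [Equiv.Perm.mul_apply, Equiv.swap_apply_def]
      split_ifs with h1 h2
      · rw [← hxy', ← h1, hf]
      · rw [hxy', ← h2, hf]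
      · exact hf a
  -- counting
  have h1 := card_inv_eq (Equiv.swap x y * θ) 2
  have h2 := card_inv_eq θ 2
  have h3 : (Finset.univ.filter (fun g : A → ZMod 2 => ∀ a, g (θ a) = g a)).card =
      2 * (Finset.univ.filter (fun g : A → ZMod 2 =>
        ∀ a, g ((Equiv.swap x y * θ) a) = g a)).card := by
    have : 2 * (Finset.univ.filter (fun g : A → ZMod 2 =>
        ∀ a, g ((Equiv.swap x y * θ) a) = g a)).card =
        ((Finset.univ : Finset (ZMod 2)) ×ˢ (Finset.univ.filter (fun g : A → ZMod 2 =>
        ∀ a, g ((Equiv.swap x y * θ) a) = g a))).card := by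
      rw [Finset.card_product]; rfl
    rw [this]
    symm
    apply Finset.card_bij'
      (fun (z : ZMod 2 × (A → ZMod 2)) _ => (fun a => z.2 a + if θ.SameCycle x a then z.1 else 0))
      (fun (g : A → ZMod 2) _ => (g x - g y, (fun a => g a - if θ.SameCycle x a then g x - g y else 0)))
    · rintro ⟨k, f⟩ hf
      simp only [mem_product, mem_univ, true_and, mem_filter, key] at hf
      simp only [mem_filter, mem_univ, true_and]
      intro a
      simp only [Equiv.Perm.sameCycle_apply_right, hf.1]
    · intro g hg
      simp only [mem_filter, mem_univ, true_and] at hg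
      simp only [mem_product, mem_univ, true_and, mem_filter, key]
      refine ⟨fun a => ?_, ?_⟩
      · simp only [Equiv.Perm.sameCycle_apply_right, hg]
      · simp [h, hxx]
    · rintro ⟨k, f⟩ hf
      simp only [mem_product, mem_univ, true_and, mem_filter, key] at hf
      ext1
      · simp [h, hf.2, hxx]
      · funext a
        by_cases ha : θ.SameCycle x a
        · simp [h, hf.2, ha, hxx]
        · simp [ha]
    · intro g hg
      funext a
      by_cases ha : θ.SameCycle x a
      · simp [ha]
      · simp [ha]
  rw [h1, h2] at h3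
  have h4 : (2 : ℕ) ^ ncyc θ = 2 ^ (ncyc (Equiv.swap x y * θ) + 1) := by
    rw [h3, pow_succ]; ring
  exact (Nat.pow_right_injective le_rfl h4).symm

/-- Splitting a cycle. -/
lemma ncyc_swap_split {θ : Equiv.Perm A} {x y : A} (hxy : x ≠ y) (h : θ.SameCycle x y) :
    ncyc (Equiv.swap x y * θ) = ncyc θ + 1 := by
  classical
  have hmain : ¬ (Equiv.swap x y * θ).SameCycle x y := by
    have hex : ∃ k : ℕ, (θ ^ k) x = y := by
      obtain ⟨i, -, hi⟩ := h.exists_pow_eq'
      exact ⟨i, hi⟩
    set k := Nat.find hex with hk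
    have hk1 : (θ ^ k) x = y := Nat.find_spec hex
    have hmin : ∀ j < k, (θ ^ j) x ≠ y := fun j hj => Nat.find_min hex hj
    have hk0 : 0 < k := by
      rcases Nat.eq_zero_or_pos k with h0 | h0
      · rw [h0] at hk1
        exact absurd (by simpa using hk1) hxy
      · exact h0
    have hminx : ∀ j, 0 < j → j < k → (θ ^ j) x ≠ x := by
      intro j hj hj' h1
      apply hmin (k - j) (by omega)
      calc (θ ^ (k - j)) x = (θ ^ (k - j)) ((θ ^ j) x) := by rw [h1]
        _ = (θ ^ (k - j + j)) x := by rw [pow_add θ (k - j) j, Equiv.Perm.mul_apply]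
        _ = y := by rw [Nat.sub_add_cancel (by omega), hk1]
    have hpow : ∀ j < k, ((Equiv.swap x y * θ) ^ j) x = (θ ^ j) x := by
      intro j
      induction j with
      | zero => intro _; simp
      | succ j ih =>
        intro hj
        rw [pow_succ', Equiv.Perm.mul_apply, ih (by omega), Equiv.Perm.mul_apply,
          ← Equiv.Perm.mul_apply θ, ← pow_succ',
          Equiv.swap_apply_of_ne_of_ne (hminx _ (by omega) hj) (hmin _ hj)]
    have hper : ((Equiv.swap x y * θ) ^ k) x = x := by
      obtain ⟨j, hj⟩ : ∃ j, k = j + 1 := ⟨k - 1, by omega⟩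
      rw [hj, pow_succ', Equiv.Perm.mul_apply, hpow j (by omega), Equiv.Perm.mul_apply,
        ← Equiv.Perm.mul_apply θ, ← pow_succ', ← hj, hk1, Equiv.swap_apply_right]
    have hperm : ∀ m : ℕ, ((Equiv.swap x y * θ) ^ (k * m)) x = x := by
      intro m
      induction m with
      | zero => simp
      | succ m ih => rw [Nat.mul_succ, pow_add, Equiv.Perm.mul_apply, hper, ih]
    intro h5
    obtain ⟨i, -, hi⟩ := h5.exists_pow_eq'
    have h6 : i = i % k + k * (i / k) := by rw [Nat.mod_add_div]
    rw [h6, pow_add, Equiv.Perm.mul_apply, hperm, hpow _ (Nat.mod_lt _ hk0)] at hi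
    exact hmin _ (Nat.mod_lt _ hk0) hi
  have h7 := ncyc_swap_merge hmain
  rw [← mul_assoc, Equiv.swap_mul_self, one_mul] at h7
  exact h7.symm

/-- Multiplying by a transposition changes the number of cycles by exactly one. -/
lemma ncyc_swap {θ : Equiv.Perm A} {x y : A} (hxy : x ≠ y) :
    ncyc (Equiv.swap x y * θ) + 1 = ncyc θ ∨ ncyc (Equiv.swap x y * θ) = ncyc θ + 1 := by
  by_cases h : θ.SameCycle x y
  · right; exact ncyc_swap_split hxy h
  · left; exact ncyc_swap_merge h

end

end Contra2
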