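import Pool.Agent.Helper310.Contra2.Count
import Pool.Agent.Helper310.Contra2.PermCyc

/-!
# The criterion: a nonzero alternating cycle sum gives a colouring
-/

open Finset

namespace Contra2

section

variable {V : Type*} (σ : Bool → Equiv.Perm V)

lemma rot_apply (i : Bool) (v : V) : rot σ (i, v) = (i, σ i v) := rfl

variable [DecidableEq V]

lemma cross_mem {U : Finset V} {i : Bool} {v : V} (h : v ∈ U) : cross U (i, v) = (!i, v) := by
  show crossFun U (i, v) = _
  simp [crossFun, h]

lemma cross_not_mem {U : Finset V} {i : Bool} {v : V} (h : v ∉ U) : cross U (i, v) = (i, v) := by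
  show crossFun U (i, v) = _
  simp [crossFun, h]

lemma cross_insert {U : Finset V} {u : V} (hu : u ∉ U) :
    cross (insert u U) = Equiv.swap (true, u) (false, u) * cross U := by
  ext1 ⟨i, v⟩
  rw [Equiv.Perm.mul_apply]
  by_cases hv : v = u
  · subst hv
    rw [cross_mem (mem_insert_self _ _), cross_not_mem hu]
    cases i
    · rw [Equiv.swap_apply_right]; rfl
    · rw [Equiv.swap_apply_left]; rfl
  · have h1 : ∀ j w, w ≠ u → Equiv.swap (true, u) (false, u) (j, w) = (j, w) := by
      intro j w hw
      apply Equiv.swap_apply_of_ne_of_ne <;> simp [hw]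
    by_cases hU : v ∈ U
    · rw [cross_mem (mem_insert_of_mem hU), cross_mem hU, h1 _ _ hv]
    · rw [cross_not_mem (by simp [hU, hv]), cross_not_mem hU, h1 _ _ hv]

lemma theta_insert {U : Finset V} {u : V} (hu : u ∉ U) :
    theta σ (insert u U) = Equiv.swap (true, u) (false, u) * theta σ U := by
  unfold theta
  rw [cross_insert hu, mul_assoc]

variable [Fintype V]

variable (q : ℕ) [NeZero q]

/-- Number of colourings compatible with the transitions `T`. -/
def Ncol (T : V → Tr) : ℕ := ((Col q σ).filter (fun f => ∀ v, Con (T v) v f)).card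

lemma sum_prod_ind (T : V → Tr) : ∑ f ∈ Col q σ, ∏ v, ind (T v) v f = (Ncol σ q T : ℤ) := by
  unfold Ncol
  rw [← Finset.sum_boole]
  apply Finset.sum_congr rfl
  intro f _
  unfold ind
  rw [Fintype.prod_boole]

lemma sum_Tr (g : Tr → ℤ) : ∑ t, g t = g .X + g .Y + g .Z := by
  have : (Finset.univ : Finset Tr) = {.X, .Y, .Z} := by decide
  rw [this, Finset.sum_insert (by decide), Finset.sum_insert (by decide),
    Finset.sum_singleton]
  ring

variable {q}

lemma col_out {f : HE V → ZMod q} (hf : f ∈ Col q σ) (v : V) (i : Bool) :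
    f (v, i, false) = f ((σ i).symm v, i, true) := by
  simp only [Col, mem_filter, mem_univ, true_and] at hf
  have := hf (v, i, false)
  rw [eps_in] at this
  exact this.symm

lemma col_in {f : HE V → ZMod q} (hf : f ∈ Col q σ) (v : V) (i : Bool) :
    f (σ i v, i, false) = f (v, i, true) := by
  rw [col_out σ hf]; simp

variable (q)

lemma Ncol_eq (U : Finset V) :
    Ncol σ q (fun v => if v ∈ U then .Z else .X) = q ^ ncyc (theta σ U) := by
  rw [← card_inv_eq]
  unfold Ncol
  apply Finset.card_bij' (fun (f : HE V → ZMod q) _ => (fun a : Bool × V => f (a.2, a.1, true)))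
    (fun (g : Bool × V → ZMod q) _ => (fun h : HE V =>
      if h.2.2 = true then g (h.2.1, h.1) else g (h.2.1, (σ h.2.1).symm h.1)))
  · intro f hf
    obtain ⟨hf, hc⟩ := Finset.mem_filter.1 hf
    simp only [mem_filter, mem_univ, true_and]
    rintro ⟨i, v⟩
    show f ((theta σ U (i, v)).2, (theta σ U (i, v)).1, true) = f (v, i, true)
    rw [← col_in σ hf v i]
    have h1 : theta σ U (i, v) = cross U (i, σ i v) := rfl
    have h2 := hc (σ i v) (i, false)
    beta_reduce at h2
    by_cases h : σ i v ∈ U
    · rw [h1, cross_mem h]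
      rw [if_pos h] at h2
      exact h2
    · rw [h1, cross_not_mem h]
      rw [if_neg h] at h2
      exact h2
  · intro g hg
    simp only [mem_filter, mem_univ, true_and] at hg
    have hg' : ∀ i v, g (cross U (i, v)) = g (i, (σ i).symm v) := by
      intro i v
      have := hg (i, (σ i).symm v)
      rw [← this]
      congr 1
      show _ = cross U (i, σ i ((σ i).symm v))
      rw [Equiv.apply_symm_apply]
    refine Finset.mem_filter.2 ⟨Finset.mem_filter.2 ⟨Finset.mem_univ _, ?_⟩, ?_⟩
    · rintro ⟨v, i, d⟩
      cases d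
      · simp
      · simp
    · rintro v ⟨i, d⟩
      beta_reduce
      by_cases h : v ∈ U
      · rw [if_pos h]
        cases d
        · show g (!i, v) = g (i, (σ i).symm v)
          rw [← hg', cross_mem h]
        · show g (!i, (σ (!i)).symm v) = g (i, v)
          rw [← hg', cross_mem h, Bool.not_not]
      · rw [if_neg h]
        cases d
        · show g (i, v) = g (i, (σ i).symm v)
          rw [← hg', cross_not_mem h]
        · show g (i, (σ i).symm v) = g (i, v)
          rw [← hg', cross_not_mem h]
  · intro f hf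
    obtain ⟨hf, hc⟩ := Finset.mem_filter.1 hf
    funext h
    obtain ⟨v, i, d⟩ := h
    cases d
    · simp only [Bool.false_eq_true, if_false]
      rw [col_out σ hf]
    · simp
  · intro g _
    funext a
    simp

/-- The signed weights. -/
def cW (V : Type*) : V → Tr → ℤ := fun _ t => match t with
  | .X => 0
  | .Y => -1
  | .Z => 1

lemma F_cW_add : F q σ (fun v t => cW V v t + 1) =
    ∑ U : Finset V, 2 ^ U.card * (q : ℤ) ^ ncyc (theta σ U) := by
  classical
  unfold F
  have h2 : ∀ f : HE V → ZMod q, ∏ v, ∑ t, (cW V v t + 1) * ind t v f =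
      ∑ U : Finset V, 2 ^ U.card * ∏ v, ind (if v ∈ U then .Z else .X) v f := by
    intro f
    have h3 : ∀ v : V, ∑ t, (cW V v t + 1) * ind t v f = 2 * ind .Z v f + ind .X v f := by
      intro v
      rw [sum_Tr]
      simp only [cW]; ring
    rw [Finset.prod_congr rfl (fun v _ => h3 v), Fintype.prod_add]
    apply Finset.sum_congr rfl
    intro U _
    rw [Finset.prod_mul_distrib, Finset.prod_const, mul_assoc]
    congr 1
    rw [← Finset.prod_mul_prod_compl U]
    congr 1
    · apply Finset.prod_congr rfl
      intro v hv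
      simp [hv]
    · apply Finset.prod_congr rfl
      intro v hv
      have : v ∉ U := by simpa using hv
      simp [this]
  rw [Finset.sum_congr rfl (fun f _ => h2 f), Finset.sum_comm]
  apply Finset.sum_congr rfl
  intro U _
  rw [← Finset.mul_sum, sum_prod_ind, Ncol_eq]
  push_cast
  rfl

lemma F_cW_mod : ((q : ℤ) + 2) ∣ F q σ (cW V) - altCycleSum σ := by
  have h1 := F_shift q σ (cW V)
  rw [F_cW_add] at h1
  have h2 : ((q : ℤ) + 2) ∣
      (∑ U : Finset V, 2 ^ U.card * (q : ℤ) ^ ncyc (theta σ U)) - altCycleSum σ := by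
    unfold altCycleSum
    rw [← Finset.sum_sub_distrib]
    apply Finset.dvd_sum
    intro U _
    rw [← mul_sub]
    apply Dvd.dvd.mul_left
    have := sub_dvd_pow_sub_pow (q : ℤ) (-2) (ncyc (theta σ U))
    rwa [sub_neg_eq_add] at this
  have h3 := dvd_sub h2 h1
  rwa [sub_sub_sub_cancel_left] at h3

/-- **Colouring lemma.** -/
theorem exists_colouring (hS : altCycleSum σ ≠ 0) :
    ∃ (q : ℕ) (_ : NeZero q) (f : Bool → V → ZMod q), (∀ i v, f i ((σ i).symm v) ≠ f i v) ∧
      ∀ v, (f true v = f false v ∧ f true ((σ true).symm v) = f false ((σ false).symm v)) ∨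
        (f true v = f false ((σ false).symm v) ∧ f true ((σ true).symm v) = f false v) := by
  obtain ⟨q, hq, hq'⟩ : ∃ q : ℕ, q = (altCycleSum σ).natAbs ∧ q ≠ 0 :=
    ⟨_, rfl, Int.natAbs_ne_zero.2 hS⟩
  have inst : NeZero q := ⟨hq'⟩
  refine ⟨q, inst, ?_⟩
  have h : F q σ (cW V) ≠ 0 := by
    intro h0
    have h1 := F_cW_mod σ q
    rw [h0, zero_sub, dvd_neg] at h1
    have h2 := Int.natAbs_dvd_natAbs.2 h1
    have h3 := Nat.le_of_dvd (Int.natAbs_pos.2 hS) h2
    have h4 : ((q : ℤ) + 2).natAbs = q + 2 := by omega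
    omega
  unfold F at h
  obtain ⟨f, hf, hf0⟩ := Finset.exists_ne_zero_of_sum_ne_zero h
  rw [Finset.prod_ne_zero_iff] at hf0
  have key : ∀ v, (Con .Z v f ∧ ¬ Con .Y v f) ∨ (Con .Y v f ∧ ¬ Con .Z v f) := by
    intro v
    have := hf0 v (Finset.mem_univ v)
    rw [sum_Tr] at this
    simp only [cW, ind] at this
    by_cases h1 : Con .Z v f <;> by_cases h2 : Con .Y v f <;> simp_all
  have hZ : ∀ v, Con .Z v f ↔
      f (v, true, true) = f (v, false, false) ∧ f (v, true, false) = f (v, false, true) := by
    intro v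
    constructor
    · intro h
      exact ⟨h (false, false), h (false, true)⟩
    · rintro ⟨h1, h2⟩ ⟨a, b⟩
      cases a <;> cases b
      · exact h1
      · exact h2
      · exact h2.symm
      · exact h1.symm
  have hY : ∀ v, Con .Y v f ↔
      f (v, true, true) = f (v, false, true) ∧ f (v, true, false) = f (v, false, false) := by
    intro v
    constructor
    · intro h
      exact ⟨h (false, true), h (false, false)⟩
    · rintro ⟨h1, h2⟩ ⟨a, b⟩
      cases a <;> cases b
      · exact h2
      · exact h1
      · exact h2.symm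
      · exact h1.symm
  refine ⟨fun i v => f (v, i, true), ?_, ?_⟩
  · intro i v
    simp only
    rw [← col_out σ hf]
    have := key v
    rw [hZ, hY] at this
    intro h
    cases i
    · rw [h] at this; tauto
    · rw [h] at this
      rcases this with ⟨⟨h1, h2⟩, h3⟩ | ⟨⟨h1, h2⟩, h3⟩
      · apply h3; exact ⟨h2, h1⟩
      · apply h3; exact ⟨h2, h1⟩
  · intro v
    simp only
    rw [← col_out σ hf, ← col_out σ hf]
    have := key v
    rw [hZ, hY] at this
    tauto

end

end Contra2
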