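import Mathlib

/-!
# Faithful circuit covers and permutation graphs: definitions
-/

namespace Contra2

variable {W : Type*}

/-- A circuit of `G`: a connected 2-regular subgraph of `G`. -/
def IsCircuit {G : SimpleGraph W} (C : G.Subgraph) : Prop :=
  C.Connected ∧ ∀ v ∈ C.verts, (C.neighborSet v).ncard = 2

/-- `(G, w)` has a faithful circuit cover: a finite family of circuits of `G` such that every
edge `e` of `G` lies in exactly `w e` members of the family. -/
def HasFaithfulCircuitCover (G : SimpleGraph W) (w : Sym2 W → ℕ) : Prop :=
  ∃ (k : ℕ) (F : Fin k → G.Subgraph), (∀ i, IsCircuit (F i)) ∧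
    ∀ e ∈ G.edgeSet, {i | e ∈ (F i).edgeSet}.ncard = w e

/-- `G` is a permutation graph: `G` is cubic, `M` is a perfect matching of `G`, and `G - M` is
the union of the two vertex-disjoint chordless circuits `C₁` and `C₂` (an edge of `G` is
outside `M` exactly if it is an edge of `C₁` or of `C₂`). -/
structure IsPermutationGraph (G : SimpleGraph W) (M C₁ C₂ : G.Subgraph) : Prop where
  cubic : ∀ v, (G.neighborSet v).ncard = 3
  matching : M.IsPerfectMatching
  circuit₁ : IsCircuit C₁
  circuit₂ : IsCircuit C₂
  chordless₁ : C₁.IsInduced
  chordless₂ : C₂.IsInduced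
  disjoint : Disjoint C₁.verts C₂.verts
  union : ∀ u v, (G.Adj u v ∧ ¬ M.Adj u v) ↔ (C₁.Adj u v ∨ C₂.Adj u v)

open Classical in
/-- The weight of Q1: `2` on the edges of `M`, `1` on all other edges. -/
noncomputable def weight {G : SimpleGraph W} (M : G.Subgraph) (e : Sym2 W) : ℕ :=
  if e ∈ M.edgeSet then 2 else 1

/-- A labelling of the permutation graph: `x` and `y` list the vertices of `C₁` and of `C₂` in
cyclic order (indices are added modulo `n`), and the vertex `x i` is matched to `y (π i)`. -/
structure IsLabelling {G : SimpleGraph W} (M C₁ C₂ : G.Subgraph) {n : ℕ} [NeZero n]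
    (x y : Fin n → W) (π : Equiv.Perm (Fin n)) : Prop where
  x_inj : Function.Injective x
  y_inj : Function.Injective y
  range_x : Set.range x = C₁.verts
  range_y : Set.range y = C₂.verts
  adj_x : ∀ i, C₁.Adj (x i) (x (i + 1))
  adj_y : ∀ i, C₂.Adj (y i) (y (i + 1))
  matched : ∀ i, M.Adj (x i) (y (π i))

section Cycles

/-- The number of cycles of a permutation (fixed points count as cycles). -/
noncomputable def ncyc {A : Type*} (θ : Equiv.Perm A) : ℕ :=
  Nat.card (Quotient (Equiv.Perm.SameCycle.setoid θ))

variable {V : Type*} (σ : Bool → Equiv.Perm V)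

/-- One step along the two circuits. -/
def rot : Equiv.Perm (Bool × V) where
  toFun a := (a.1, σ a.1 a.2)
  invFun a := (a.1, (σ a.1).symm a.2)
  left_inv a := by simp
  right_inv a := by simp

variable [DecidableEq V]

/-- Crossing over at the members of `U`. -/
def crossFun (U : Finset V) (a : Bool × V) : Bool × V := if a.2 ∈ U then (!a.1, a.2) else a

lemma crossFun_crossFun (U : Finset V) (a : Bool × V) : crossFun U (crossFun U a) = a := by
  obtain ⟨i, v⟩ := a
  unfold crossFun
  by_cases h : v ∈ U <;> simp [h]

/-- Crossing over at the members of `U`, as a permutation. -/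
def cross (U : Finset V) : Equiv.Perm (Bool × V) :=
  ⟨crossFun U, crossFun U, crossFun_crossFun U, crossFun_crossFun U⟩

/-- The permutation of the edges of the circuits after crossing over at `U`. -/
def theta (U : Finset V) : Equiv.Perm (Bool × V) := cross U * rot σ

variable [Fintype V]

/-- The alternating cycle sum. -/
noncomputable def altCycleSum : ℤ := ∑ U : Finset V, 2 ^ U.card * (-2) ^ ncyc (theta σ U)

end Cycles

section Pattern

variable {n : ℕ} [NeZero n]

/-- `a, b, c` are in this cyclic order on `Fin n`. -/
def CI (a b c : Fin n) : Prop := (a < b ∧ b < c) ∨ (b < c ∧ c < a) ∨ (c < a ∧ a < b)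

instance (a b c : Fin n) : Decidable (CI a b c) := by unfold CI; infer_instance

/-- The successor maps of the two circuits, read on the set `Fin n` of matching edges: the first
circuit meets the matching edges in the order `0, 1, …, n - 1`, the second circuit meets the
edge `i` at its position `π i`. -/
def sigma (π : Equiv.Perm (Fin n)) (i : Bool) : Equiv.Perm (Fin n) :=
  if i = true then Equiv.addRight 1 else (π.trans (Equiv.addRight 1)).trans π.symm

/-- The number of triples `i < j < k` on which the pattern of `π` is even, i.e. `π i, π j, π k`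
are in this cyclic order. -/
def evenTriples (π : Equiv.Perm (Fin n)) : ℕ :=
  (Finset.univ.filter (fun t : Fin n × Fin n × Fin n =>
    t.1 < t.2.1 ∧ t.2.1 < t.2.2 ∧ CI (π t.1) (π t.2.1) (π t.2.2))).card

end Pattern

end Contra2
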