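import Pool.Agent.Helper310.Contra2.Crit

/-!
# The alternating cycle sum modulo 64
-/

open Finset

namespace Contra2

section Walk

variable {V β : Type*} (s : Equiv.Perm V)

lemma walk_all (hs : ∀ x y, ∃ k : ℕ, (s ^ k) x = y) (g : V → β) (u : V)
    (h : ∀ w, s w ≠ u → g (s w) = g w) (w : V) : g w = g u := by
  obtain ⟨k, hk⟩ := hs u w
  induction k generalizing w with
  | zero => rw [← hk]; simp
  | succ k ih =>
    by_cases h1 : w = u
    · rw [h1]
    rw [pow_succ', Equiv.Perm.mul_apply] at hk
    have := h ((s ^ k) u) (by rw [hk]; exact h1)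
    rw [hk] at this
    rw [this]
    exact ih _ rfl

end Walk

section

variable {V : Type*} (σ : Bool → Equiv.Perm V) [DecidableEq V]

lemma theta_mem {U : Finset V} {i : Bool} {v : V} (h : σ i v ∈ U) :
    theta σ U (i, v) = (!i, σ i v) := cross_mem h

lemma theta_not_mem {U : Finset V} {i : Bool} {v : V} (h : σ i v ∉ U) :
    theta σ U (i, v) = (i, σ i v) := cross_not_mem h

variable [Fintype V]

lemma ncyc_insert {U : Finset V} {u : V} (hu : u ∉ U) :
    ncyc (theta σ (insert u U)) + 1 = ncyc (theta σ U) ∨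
      ncyc (theta σ (insert u U)) = ncyc (theta σ U) + 1 := by
  rw [theta_insert σ hu]
  exact ncyc_swap (by simp)

variable (hσ : ∀ i x y, ∃ k : ℕ, (σ i ^ k) x = y)

include hσ

lemma ncyc_one (u : V) : ncyc (theta σ {u}) = 1 := by
  have : Nonempty (Bool × V) := ⟨(true, u)⟩
  apply ncyc_eq_one_of_const
  intro g hg
  have h1 : ∀ i w, g (i, w) = g (i, u) := by
    intro i w
    apply walk_all (σ i) (hσ i) (fun w => g (i, w)) u
    intro w hw
    have := hg (i, w)
    rw [theta_not_mem σ (by simpa using hw)] at this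
    exact this
  have h2 : ∀ i, g (!i, u) = g (i, u) := by
    intro i
    have := hg (i, (σ i).symm u)
    rw [theta_mem σ (by simp), Equiv.apply_symm_apply, h1 i] at this
    exact this
  have h3 : ∀ a, g a = g (true, u) := by
    rintro ⟨i, w⟩
    rw [h1]
    cases i
    · exact h2 true
    · rfl
  intro a b
  rw [h3 a, h3 b]

lemma ncyc_zero [Nonempty V] : ncyc (theta σ (∅ : Finset V)) = 2 := by
  have h1 := theta_insert σ (notMem_empty (Classical.arbitrary V))
  have h2 := ncyc_swap (θ := theta σ (∅ : Finset V)) (x := (true, Classical.arbitrary V))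
    (y := (false, Classical.arbitrary V)) (by simp)
  rw [← h1] at h2
  have h3 := ncyc_one σ hσ (Classical.arbitrary V)
  rw [show insert (Classical.arbitrary V) (∅ : Finset V) = {Classical.arbitrary V} from rfl,
    h3] at h2
  have h4 := ncyc_pos (theta σ (∅ : Finset V))
  omega

lemma ncyc_parity [Nonempty V] (U : Finset V) : (ncyc (theta σ U) + U.card) % 2 = 0 := by
  induction U using Finset.induction_on with
  | empty => rw [ncyc_zero σ hσ]; simp
  | insert u U hu ih =>
    have := ncyc_insert σ hu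
    rw [Finset.card_insert_of_notMem hu]
    omega

lemma ncyc_two {u v : V} (huv : u ≠ v) : ncyc (theta σ {u, v}) = 2 := by
  have : Nonempty (Bool × V) := ⟨(true, u)⟩
  have h1 := ncyc_insert σ (u := u) (U := {v}) (by simpa using huv)
  rw [ncyc_one σ hσ] at h1
  have h4 := ncyc_pos (theta σ ({u, v} : Finset V))
  omega

lemma ncyc_three {u v w : V} (huv : u ≠ v) (huw : u ≠ w) (hvw : v ≠ w) :
    ncyc (theta σ {u, v, w}) = 1 ∨ ncyc (theta σ {u, v, w}) = 3 := by
  have h1 := ncyc_insert σ (u := u) (U := {v, w}) (by simp [huv, huw])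
  rw [ncyc_two σ hσ hvw] at h1
  omega

lemma term_mod [Nonempty V] (U : Finset V) :
    (64 : ℤ) ∣ 2 ^ U.card * (-2) ^ ncyc (theta σ U) -
      ((if U.card = 0 then 4 else if U.card = 1 then -4 else if U.card = 2 then 16 else 0) +
        if U.card = 3 ∧ ncyc (theta σ U) = 1 then -16 else 0) := by
  have hpos := ncyc_pos (theta σ U)
  have hpar := ncyc_parity σ hσ U
  rcases Nat.lt_or_ge U.card 4 with h | h
  · interval_cases hU : U.card
    · rw [Finset.card_eq_zero] at hU
      subst hU
      rw [ncyc_zero σ hσ]; norm_num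
    · obtain ⟨u, rfl⟩ := Finset.card_eq_one.1 hU
      rw [ncyc_one σ hσ]
      norm_num
    · obtain ⟨u, v, huv, rfl⟩ := Finset.card_eq_two.1 hU
      rw [ncyc_two σ hσ huv]
      norm_num
    · obtain ⟨u, v, w, huv, huw, hvw, rfl⟩ := Finset.card_eq_three.1 hU
      rcases ncyc_three σ hσ huv huw hvw with h1 | h1
      · rw [h1]; norm_num
      · rw [h1]; norm_num
  · have h0 : U.card ≠ 0 := by omega
    have h1 : U.card ≠ 1 := by omega
    have h2 : U.card ≠ 2 := by omega
    have h3 : ¬ (U.card = 3 ∧ ncyc (theta σ U) = 1) := by omega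
    rw [if_neg h0, if_neg h1, if_neg h2, if_neg h3, add_zero, sub_zero]
    have h5 : 6 ≤ U.card + ncyc (theta σ U) := by omega
    have h6 : (2 : ℤ) ^ U.card * (-2) ^ ncyc (theta σ U) =
        2 ^ 6 * (2 ^ (U.card + ncyc (theta σ U) - 6) * (-1) ^ ncyc (theta σ U)) := by
      have : (-2 : ℤ) ^ ncyc (theta σ U) = 2 ^ ncyc (theta σ U) * (-1) ^ ncyc (theta σ U) := by
        rw [← mul_pow]; norm_num
      rw [this, ← mul_assoc, ← mul_assoc, ← pow_add, ← pow_add]
      congr 2
      omega
    have h7 : (64 : ℤ) = 2 ^ 6 := by norm_num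
    rw [h6, h7]
    exact dvd_mul_right _ _

/-- The alternating cycle sum modulo 64. -/
theorem SS_mod [Nonempty V] :
    (64 : ℤ) ∣ altCycleSum σ - (4 - 4 * Fintype.card V + 16 * ((Fintype.card V).choose 2 : ℕ)
      - 16 * ((Finset.univ.filter (fun U : Finset V =>
        U.card = 3 ∧ ncyc (theta σ U) = 1)).card : ℤ)) := by
  classical
  have h4 : (4 - 4 * Fintype.card V + 16 * ((Fintype.card V).choose 2 : ℕ) : ℤ) =
      ∑ U : Finset V, (if U.card = 0 then 4 else if U.card = 1 then -4 else
        if U.card = 2 then 16 else 0 : ℤ) := by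
    have h5 := Finset.sum_powerset_apply_card
      (fun m => (if m = 0 then 4 else if m = 1 then -4 else if m = 2 then 16 else 0 : ℤ))
      (x := (Finset.univ : Finset V))
    rw [Finset.powerset_univ] at h5
    rw [h5, Finset.card_univ]
    obtain ⟨k, hk⟩ : ∃ k, Fintype.card V = k + 1 :=
      ⟨Fintype.card V - 1, by have := Fintype.card_pos (α := V); omega⟩
    rw [hk]
    rcases k with _ | k
    · simp [Finset.sum_range_succ]
    · rw [Finset.sum_range_succ', Finset.sum_range_succ', Finset.sum_range_succ']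
      simp
      ring
  have h6 : (16 * ((Finset.univ.filter (fun U : Finset V =>
        U.card = 3 ∧ ncyc (theta σ U) = 1)).card : ℤ)) =
      - ∑ U : Finset V, (if U.card = 3 ∧ ncyc (theta σ U) = 1 then -16 else 0 : ℤ) := by
    rw [← Finset.sum_filter, Finset.sum_const, nsmul_eq_mul]
    ring
  rw [h4, h6, sub_neg_eq_add, ← Finset.sum_add_distrib, altCycleSum, ← Finset.sum_sub_distrib]
  apply Finset.dvd_sum
  intro U _
  exact term_mod σ hσ U

end

end Contra2
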