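import Pool.Agent.Helper310.Contra2.Eval

/-!
# Triples of matching edges in the same cyclic order
-/

open Finset

namespace Contra2

variable {n : ℕ} [NeZero n]

lemma fin_succ (p : Fin n) :
    (p.val + 1 < n ∧ (p + 1).val = p.val + 1) ∨ (p.val + 1 = n ∧ (p + 1).val = 0) := by
  have h1 : (p + 1).val = (p.val + 1) % n := by
    rw [Fin.val_add, Fin.val_one', Nat.add_mod_mod]
  rcases Nat.lt_or_ge (p.val + 1) n with h | h
  · left; exact ⟨h, by rw [h1, Nat.mod_eq_of_lt h]⟩
  · right
    have h2 : p.val + 1 = n := by have := p.isLt; omega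
    exact ⟨h2, by rw [h1, h2, Nat.mod_self]⟩

lemma sigma_true (π : Equiv.Perm (Fin n)) (v : Fin n) : sigma π true v = v + 1 := rfl

lemma sigma_false (π : Equiv.Perm (Fin n)) (v : Fin n) :
    sigma π false v = π.symm (π v + 1) := rfl

lemma addRight_pow (k : ℕ) (x : Fin n) :
    (((Equiv.addRight (1 : Fin n) : Equiv.Perm (Fin n)) ^ k) x).val = (x.val + k) % n := by
  induction k with
  | zero => simp [Nat.mod_eq_of_lt x.isLt]
  | succ k ih =>
    rw [pow_succ', Equiv.Perm.mul_apply, Equiv.coe_addRight, Fin.val_add, ih, Fin.val_one',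
      Nat.add_mod_mod, Nat.mod_add_mod, add_assoc]

lemma addRight_trans (x y : Fin n) :
    ∃ k : ℕ, ((Equiv.addRight (1 : Fin n) : Equiv.Perm (Fin n)) ^ k) x = y := by
  refine ⟨n - x.val + y.val, Fin.ext ?_⟩
  have hx := x.isLt
  rw [addRight_pow, show x.val + (n - x.val + y.val) = y.val + n by omega, Nat.add_mod_right,
    Nat.mod_eq_of_lt y.isLt]

lemma conj_pow' {A B : Type*} (e : A ≃ B) (s : Equiv.Perm B) (k : ℕ) (x : A) :
    (((e.trans s).trans e.symm : Equiv.Perm A) ^ k) x = e.symm ((s ^ k) (e x)) := by
  induction k with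
  | zero => simp
  | succ k ih => rw [pow_succ', Equiv.Perm.mul_apply, ih, pow_succ', Equiv.Perm.mul_apply]; simp

lemma sigma_trans (π : Equiv.Perm (Fin n)) (i : Bool) (x y : Fin n) :
    ∃ k : ℕ, (sigma π i ^ k) x = y := by
  cases i
  · obtain ⟨k, hk⟩ := addRight_trans (π x) (π y)
    refine ⟨k, ?_⟩
    have : sigma π false = (π.trans (Equiv.addRight 1)).trans π.symm := rfl
    rw [this, conj_pow', hk]; simp
  · exact addRight_trans x y

section Arc

variable {β : Type*} {h : Fin n → β} {C : Finset (Fin n)}

lemma seg (hstep : ∀ p, p + 1 ∉ C → h (p + 1) = h p) (a : Fin n) :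
    ∀ (m : ℕ) (b : Fin n), b.val = m → a.val ≤ m → (∀ c ∈ C, ¬ (a < c ∧ c ≤ b)) → h b = h a := by
  intro m
  induction m with
  | zero =>
    intro b hb ha _
    have : b = a := Fin.ext (by omega)
    rw [this]
  | succ m ih =>
    intro b hb ha hC
    by_cases hab : b = a
    · rw [hab]
    have hab' : a.val < b.val := by
      rcases Nat.lt_or_ge a.val b.val with h1 | h1
      · exact h1
      · exact absurd (Fin.ext (by omega)) hab
    have hlt : m < n := by have := b.isLt; omega
    let b' : Fin n := ⟨m, hlt⟩
    have hb' : b' + 1 = b := by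
      apply Fin.ext
      rcases fin_succ b' with ⟨h1, h2⟩ | ⟨h1, h2⟩
      · rw [h2]; show m + 1 = b.val; omega
      · exfalso
        have := b.isLt
        have h3 : b'.val = m := rfl
        omega
    have h1 : h b = h b' := by
      rw [← hb']
      apply hstep
      intro h2
      rw [hb'] at h2
      exact hC b h2 ⟨hab', le_refl _⟩
    rw [h1]
    apply ih b' rfl (by omega)
    intro c hc hc'
    apply hC c hc
    refine ⟨hc'.1, ?_⟩
    have h3 : c.val ≤ m := hc'.2
    show c.val ≤ b.val
    omega

lemma seg' (hstep : ∀ p, p + 1 ∉ C → h (p + 1) = h p) {a b : Fin n} (hab : a ≤ b)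
    (hC : ∀ c ∈ C, ¬ (a < c ∧ c ≤ b)) : h b = h a :=
  seg hstep a b.val b rfl hab hC

lemma arc {p₁ p₂ p₃ : Fin n} (hstep : ∀ p, p + 1 ∉ ({p₁, p₂, p₃} : Finset (Fin n)) →
      h (p + 1) = h p) (hCI : CI p₁ p₂ p₃) (p : Fin n) (hp : p + 1 = p₂) : h p = h p₁ := by
  have hpv := fin_succ p
  rw [hp] at hpv
  unfold CI at hCI
  simp only [Fin.lt_def] at hCI
  by_cases h12 : p₁ < p₂
  · -- no wrapping
    have h12' : p₁.val < p₂.val := h12
    apply seg' hstep
    · show p₁.val ≤ p.val; omega
    · intro c hc hc'
      have h1 : p₁.val < c.val := hc'.1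
      have h2 : c.val ≤ p.val := hc'.2
      simp only [mem_insert, mem_singleton] at hc
      rcases hc with rfl | rfl | rfl <;> omega
  · -- wrapping
    have h12' : p₂.val ≤ p₁.val := by
      have := Fin.not_lt.1 h12
      exact this
    have h23 : p₂.val < p₃.val ∧ p₃.val < p₁.val := by omega
    -- the last vertex
    have hn : 0 < n := Nat.pos_of_ne_zero (NeZero.ne n)
    let l : Fin n := ⟨n - 1, by omega⟩
    have hl : l.val = n - 1 := rfl
    have hl1 : h l = h p₁ := by
      apply seg' hstep
      · show p₁.val ≤ l.val; have := p₁.isLt; omega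
      · intro c hc hc'
        have h1 : p₁.val < c.val := hc'.1
        simp only [mem_insert, mem_singleton] at hc
        rcases hc with rfl | rfl | rfl <;> omega
    by_cases h0 : p₂.val = 0
    · have : p = l := Fin.ext (by omega)
      rw [this, hl1]
    · have hz : l + 1 = 0 := by
        apply Fin.ext
        rcases fin_succ l with ⟨h1, h2⟩ | ⟨h1, h2⟩
        · omega
        · rw [h2]; rfl
      have hz0 : (0 : Fin n).val = 0 := rfl
      have h2 : h 0 = h l := by
        rw [← hz]
        apply hstep
        rw [hz]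
        simp only [mem_insert, mem_singleton, not_or]
        refine ⟨?_, ?_, ?_⟩ <;> intro h1 <;> have h1' := congrArg Fin.val h1 <;> omega
      have h3 : h p = h 0 := by
        apply seg' hstep
        · exact Nat.zero_le _
        · intro c hc hc'
          have h1 : c.val ≤ p.val := hc'.2
          simp only [mem_insert, mem_singleton] at hc
          rcases hc with rfl | rfl | rfl <;> omega
      rw [h3, h2, hl1]

end Arc

omit [NeZero n] in
lemma CI_rot {a b c : Fin n} (h : CI a b c) : CI b c a := by
  unfold CI at *; tauto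

lemma walk_const {V β : Type*} (s : Equiv.Perm V) (hs : ∀ x y, ∃ k : ℕ, (s ^ k) x = y)
    (g : V → β) (C : Finset V) (u : V) (hu : u ∈ C) (c : β) (hc : ∀ w ∈ C, g w = c)
    (h : ∀ w, s w ∉ C → g (s w) = g w) (w : V) : g w = c := by
  obtain ⟨k, hk⟩ := hs u w
  induction k generalizing w with
  | zero => rw [← hk]; exact hc u hu
  | succ k ih =>
    by_cases h1 : w ∈ C
    · exact hc w h1
    rw [pow_succ', Equiv.Perm.mul_apply] at hk
    have := h ((s ^ k) u) (by rw [hk]; exact h1)
    rw [hk] at this
    rw [this]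
    exact ih _ rfl

/-- Even triples give a single cycle. -/
lemma ncyc_of_even (π : Equiv.Perm (Fin n)) {i j k : Fin n} (hij : i < j) (hjk : j < k)
    (h : CI (π i) (π j) (π k)) : ncyc (theta (sigma π) {i, j, k}) = 1 := by
  have : Nonempty (Bool × Fin n) := ⟨(true, i)⟩
  apply ncyc_eq_one_of_const
  intro g hg
  have hstep1 : ∀ p, p + 1 ∉ ({i, j, k} : Finset (Fin n)) → g (true, p + 1) = g (true, p) := by
    intro p hp
    have := hg (true, p)
    rw [theta_not_mem _ (by rw [sigma_true]; exact hp)] at this
    exact this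
  have hstep2 : ∀ p, p + 1 ∉ ({π i, π j, π k} : Finset (Fin n)) →
      g (false, π.symm (p + 1)) = g (false, π.symm p) := by
    intro p hp
    have h1 := hg (false, π.symm p)
    have h2 : sigma π false (π.symm p) = π.symm (p + 1) := by rw [sigma_false]; simp
    rw [theta_not_mem _ (by
      rw [h2]
      simp only [mem_insert, mem_singleton, not_or, Equiv.symm_apply_eq] at hp ⊢
      exact hp), h2] at h1
    exact h1
  have hcr1 : ∀ u ∈ ({i, j, k} : Finset (Fin n)), ∀ p, p + 1 = u → g (false, u) = g (true, p) := by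
    intro u hu p hp
    have := hg (true, p)
    rw [theta_mem _ (by rw [sigma_true, hp]; exact hu), sigma_true, hp] at this
    exact this
  have hcr2 : ∀ u ∈ ({i, j, k} : Finset (Fin n)), ∀ p, p + 1 = π u →
      g (true, u) = g (false, π.symm p) := by
    intro u hu p hp
    have h1 := hg (false, π.symm p)
    have h2 : sigma π false (π.symm p) = u := by rw [sigma_false]; simp [hp]
    rw [theta_mem _ (by rw [h2]; exact hu), h2] at h1
    exact h1
  have hCI : CI i j k := Or.inl ⟨hij, hjk⟩
  have perm1 : ({i, j, k} : Finset (Fin n)) = {j, k, i} := by ext; simp; tauto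
  have perm2 : ({i, j, k} : Finset (Fin n)) = {k, i, j} := by ext; simp; tauto
  have perm3 : ({π i, π j, π k} : Finset (Fin n)) = {π j, π k, π i} := by ext; simp; tauto
  have perm4 : ({π i, π j, π k} : Finset (Fin n)) = {π k, π i, π j} := by ext; simp; tauto
  have a1 := arc (h := fun p => g (true, p)) hstep1 hCI
  have a2 := arc (h := fun p => g (true, p)) (perm1 ▸ hstep1) (CI_rot hCI)
  have a3 := arc (h := fun p => g (true, p)) (perm2 ▸ hstep1) (CI_rot (CI_rot hCI))
  have b1 := arc (h := fun p => g (false, π.symm p)) hstep2 h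
  have b2 := arc (h := fun p => g (false, π.symm p)) (perm3 ▸ hstep2) (CI_rot h)
  have b3 := arc (h := fun p => g (false, π.symm p)) (perm4 ▸ hstep2) (CI_rot (CI_rot h))
  simp only [Equiv.symm_apply_apply] at b1 b2 b3
  have e1 : g (false, j) = g (true, i) := by
    rw [hcr1 j (by simp) (j - 1) (by simp), a1 (j - 1) (by simp)]
  have e2 : g (false, k) = g (true, j) := by
    rw [hcr1 k (by simp) (k - 1) (by simp), a2 (k - 1) (by simp)]
  have e3 : g (false, i) = g (true, k) := by
    rw [hcr1 i (by simp) (i - 1) (by simp), a3 (i - 1) (by simp)]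
  have f1 : g (true, j) = g (false, i) := by
    rw [hcr2 j (by simp) (π j - 1) (by simp), b1 (π j - 1) (by simp)]
  have f2 : g (true, k) = g (false, j) := by
    rw [hcr2 k (by simp) (π k - 1) (by simp), b2 (π k - 1) (by simp)]
  have f3 : g (true, i) = g (false, k) := by
    rw [hcr2 i (by simp) (π i - 1) (by simp), b3 (π i - 1) (by simp)]
  have hall : ∀ b w, g (b, w) = g (true, i) := by
    intro b w
    apply walk_const (sigma π b) (sigma_trans π b) (fun w => g (b, w)) {i, j, k} i (by simp)
    · intro w hw
      simp only [mem_insert, mem_singleton] at hw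
      cases b
      · rcases hw with rfl | rfl | rfl
        · show g (false, w) = g (true, w)
          rw [e3, f2, e1]
        · exact e1
        · exact f3.symm
      · rcases hw with rfl | rfl | rfl
        · rfl
        · show g (true, w) = g (true, i)
          rw [f3, e2]
        · show g (true, w) = g (true, i)
          rw [f2, e1]
    · intro w hw
      have := hg (b, w)
      rw [theta_not_mem _ hw] at this
      exact this
  rintro ⟨b, w⟩ ⟨b', w'⟩
  rw [hall b w, hall b' w']

/-- The odd pattern gives an invariant non-constant function. -/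
lemma ncyc_ne_one_aux (π : Equiv.Perm (Fin n)) {a b c : Fin n} (hab : a < b) (hπ : π b < π a)
    (hc : ¬ (a ≤ c ∧ c ≤ b)) (hπc : ¬ (π b ≤ π c ∧ π c ≤ π a)) :
    ncyc (theta (sigma π) {a, b, c}) ≠ 1 := by
  let g : Bool × Fin n → Prop := fun x =>
    if x.1 = true then a ≤ x.2 ∧ x.2 < b else π b ≤ π x.2 ∧ π x.2 < π a
  have g1 : ∀ v, g (true, v) = (a ≤ v ∧ v < b) := fun v => rfl
  have g2 : ∀ v, g (false, v) = (π b ≤ π v ∧ π v < π a) := fun v => rfl
  have hab' : a.val < b.val := hab
  have hπ' : (π b).val < (π a).val := hπ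
  have hc' : ¬ (a.val ≤ c.val ∧ c.val ≤ b.val) := hc
  have hπc' : ¬ ((π b).val ≤ (π c).val ∧ (π c).val ≤ (π a).val) := hπc
  have hb1 := b.isLt
  have hb2 := (π a).isLt
  apply ncyc_ne_one_of_nonconst (g := g) (a := (true, a)) (b := (true, b))
  · rintro ⟨i, v⟩
    by_cases hU : sigma π i v ∈ ({a, b, c} : Finset (Fin n))
    · rw [theta_mem _ hU]
      cases i
      · -- second circuit
        have hv := fin_succ (π v)
        have h1 : π (sigma π false v) = π v + 1 := by rw [sigma_false]; simp
        rw [← h1] at hv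
        show g (true, _) = g (false, v)
        rw [g1, g2]
        simp only [Fin.le_def, Fin.lt_def]
        simp only [mem_insert, mem_singleton] at hU
        apply propext
        rcases hU with h | h | h <;> rw [h] at hv ⊢ <;> omega
      · have hv := fin_succ v
        rw [← sigma_true π] at hv
        show g (false, _) = g (true, v)
        rw [g1, g2]
        simp only [Fin.le_def, Fin.lt_def]
        simp only [mem_insert, mem_singleton] at hU
        apply propext
        rcases hU with h | h | h <;> rw [h] at hv ⊢ <;> omega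
    · rw [theta_not_mem _ hU]
      simp only [mem_insert, mem_singleton, not_or] at hU
      cases i
      · have hv := fin_succ (π v)
        have h1 : π (sigma π false v) = π v + 1 := by rw [sigma_false]; simp
        rw [← h1] at hv
        rw [g2, g2]
        simp only [Fin.le_def, Fin.lt_def]
        have h2 : (π (sigma π false v)).val ≠ (π a).val := fun h3 =>
          hU.1 (π.injective (Fin.ext h3))
        have h4 : (π (sigma π false v)).val ≠ (π b).val := fun h3 =>
          hU.2.1 (π.injective (Fin.ext h3))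
        apply propext
        omega
      · have hv := fin_succ v
        rw [← sigma_true π] at hv
        rw [g1, g1]
        simp only [Fin.le_def, Fin.lt_def]
        have h2 : (sigma π true v).val ≠ a.val := fun h3 => hU.1 (Fin.ext h3)
        have h4 : (sigma π true v).val ≠ b.val := fun h3 => hU.2.1 (Fin.ext h3)
        apply propext
        omega
  · rw [g1, g1]
    simp [hab]

lemma ncyc_of_odd (π : Equiv.Perm (Fin n)) {i j k : Fin n} (hij : i < j) (hjk : j < k)
    (h : ¬ CI (π i) (π j) (π k)) : ncyc (theta (sigma π) {i, j, k}) ≠ 1 := by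
  have hij' : i.val < j.val := hij
  have hjk' : j.val < k.val := hjk
  have n1 : (π i).val ≠ (π j).val := fun h3 => by
    have := π.injective (Fin.ext h3); rw [this] at hij'; omega
  have n2 : (π j).val ≠ (π k).val := fun h3 => by
    have := π.injective (Fin.ext h3); rw [this] at hjk'; omega
  have n3 : (π i).val ≠ (π k).val := fun h3 => by
    have := π.injective (Fin.ext h3); rw [this] at hij'; omega
  unfold CI at h
  simp only [Fin.lt_def] at h
  by_cases hji : (π j).val < (π i).val
  · -- patterns 321 and 213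
    apply ncyc_ne_one_aux π hij hji
    · rintro ⟨-, h2⟩
      have : k.val ≤ j.val := h2
      omega
    · rintro ⟨h1, h2⟩
      have h1' : (π j).val ≤ (π k).val := h1
      have h2' : (π k).val ≤ (π i).val := h2
      omega
  · -- pattern 132
    have hkj : (π k).val < (π j).val := by omega
    have hik : (π i).val < (π k).val := by omega
    have hset : ({i, j, k} : Finset (Fin n)) = {j, k, i} := by ext; simp; tauto
    rw [hset]
    apply ncyc_ne_one_aux π hjk hkj
    · rintro ⟨h1, -⟩
      have : j.val ≤ i.val := h1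
      omega
    · rintro ⟨h1, h2⟩
      have h1' : (π k).val ≤ (π i).val := h1
      omega

/-- The number of three-element sets giving a single cycle. -/
lemma card_triples (π : Equiv.Perm (Fin n)) :
    (Finset.univ.filter (fun U : Finset (Fin n) =>
        U.card = 3 ∧ ncyc (theta (sigma π) U) = 1)).card = evenTriples π := by
  symm
  unfold evenTriples
  apply Finset.card_bij (fun (t : Fin n × Fin n × Fin n) _ => ({t.1, t.2.1, t.2.2} : Finset (Fin n)))
  · rintro ⟨i, j, k⟩ ht
    simp only [mem_filter, mem_univ, true_and] at ht ⊢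
    obtain ⟨h1, h2, h3⟩ := ht
    exact ⟨Finset.card_eq_three.2 ⟨i, j, k, h1.ne, (h1.trans h2).ne, h2.ne, rfl⟩,
      ncyc_of_even π h1 h2 h3⟩
  · rintro ⟨i, j, k⟩ ht ⟨i', j', k'⟩ ht' heq
    simp only [mem_filter, mem_univ, true_and] at ht ht' heq
    obtain ⟨h1, h2, -⟩ := ht
    obtain ⟨h1', h2', -⟩ := ht'
    have m1 : i ∈ ({i', j', k'} : Finset (Fin n)) := heq ▸ (by simp)
    have m2 : j ∈ ({i', j', k'} : Finset (Fin n)) := heq ▸ (by simp)
    have m3 : k ∈ ({i', j', k'} : Finset (Fin n)) := heq ▸ (by simp)
    simp only [mem_insert, mem_singleton, Fin.ext_iff] at m1 m2 m3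
    simp only [Fin.lt_def] at h1 h2 h1' h2'
    simp only [Prod.mk.injEq, Fin.ext_iff]
    omega
  · intro U hU
    simp only [mem_filter, mem_univ, true_and] at hU
    obtain ⟨hU3, hU1⟩ := hU
    let e := U.orderEmbOfFin hU3
    have hlt1 : e 0 < e 1 := e.strictMono (by decide)
    have hlt2 : e 1 < e 2 := e.strictMono (by decide)
    have hUeq : U = {e 0, e 1, e 2} := by
      symm
      apply Finset.eq_of_subset_of_card_le
      · intro x hx
        simp only [mem_insert, mem_singleton] at hx
        rcases hx with rfl | rfl | rfl <;> exact U.orderEmbOfFin_mem hU3 _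
      · rw [hU3, Finset.card_eq_three.2
          ⟨e 0, e 1, e 2, hlt1.ne, (hlt1.trans hlt2).ne, hlt2.ne, rfl⟩]
    refine ⟨(e 0, e 1, e 2), ?_, hUeq.symm⟩
    simp only [mem_filter, mem_univ, true_and]
    refine ⟨hlt1, hlt2, ?_⟩
    by_contra hcon
    apply ncyc_of_odd π hlt1 hlt2 hcon
    rw [← hUeq]
    exact hU1

/-- The alternating cycle sum of a permutation. -/
theorem SS_sigma_mod (π : Equiv.Perm (Fin n)) :
    (64 : ℤ) ∣ altCycleSum (sigma π) - (4 - 4 * n + 16 * (n.choose 2 : ℕ) - 16 * (evenTriples π : ℤ)) := by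
  have := SS_mod (sigma π) (sigma_trans π)
  rw [card_triples] at this
  simpa using this

theorem SS_ne_zero_of_mod_four (π : Equiv.Perm (Fin n)) (hn : n % 4 ≠ 1) :
    altCycleSum (sigma π) ≠ 0 := by
  intro h0
  have h := SS_sigma_mod π
  rw [h0] at h
  omega

theorem SS_ne_zero_of_triples (π : Equiv.Perm (Fin n)) (hn : n % 4 = 1)
    (ht : evenTriples π % 4 ≠ (n / 4) % 4) : altCycleSum (sigma π) ≠ 0 := by
  intro h0
  have h := SS_sigma_mod π
  rw [h0] at h
  obtain ⟨m, hm⟩ : ∃ m, n = 4 * m + 1 := ⟨n / 4, by omega⟩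
  have hc : n.choose 2 = 8 * (m * m) + 2 * m := by
    rw [Nat.choose_two_right, hm, Nat.add_sub_cancel]
    have : (4 * m + 1) * (4 * m) = 2 * (8 * (m * m) + 2 * m) := by ring
    rw [this, Nat.mul_div_cancel_left _ (by norm_num)]
  rw [hc] at h
  have hm4 : n / 4 = m := by omega
  rw [hm4] at ht
  push_cast at h
  generalize ((m : ℤ) * m) = z at h
  omega

end Contra2
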