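import Pool.Agent.Helper310.Contra2.Cover
import Pool.Agent.Helper310.Contra2.Patt
import Pool.Agent.Helper310.Contra.Cyc

/-!
# Faithful circuit covers of labelled permutation graphs
-/

namespace Contra2

variable {W : Type*} {G : SimpleGraph W}

lemma circuit_perm [Finite W] {C : G.Subgraph} (hC : IsCircuit C) :
    ∃ s : Equiv.Perm C.verts, (∀ x y, ∃ k : ℕ, (s ^ k) x = y) ∧ (∀ x, s (s x) ≠ x) ∧
      ∀ x y : C.verts, C.Adj x y ↔ (s x = y ∨ s y = x) := by
  have h2 : ∀ v, (C.coe.neighborSet v).ncard = 2 := by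
    intro v
    have h1 := hC.2 v.1 v.2
    rw [← h1]
    exact Nat.card_congr (SimpleGraph.Subgraph.coeNeighborSetEquiv v)
  exact Contra.exists_cyclic_perm C.coe hC.1.coe h2

/-- The vertices of a circuit can be listed in cyclic order. -/
lemma exists_listing [Finite W] {C : G.Subgraph} (hC : IsCircuit C) (n : ℕ) [NeZero n]
    (hn : Nat.card C.verts = n) :
    ∃ x : Fin n → W, Function.Injective x ∧ Set.range x = C.verts ∧
      ∀ i, C.Adj (x i) (x (i + 1)) := by
  classical
  obtain ⟨s, hs, -, hadj⟩ := circuit_perm hC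
  have : Fintype C.verts := Fintype.ofFinite _
  obtain ⟨v₀⟩ : Nonempty C.verts := hC.1.coe.nonempty
  have hcy : s.IsCycleOn ((Finset.univ : Finset C.verts) : Set C.verts) := by
    constructor
    · rw [Finset.coe_univ]
      exact Set.bijOn_univ.2 s.bijective
    · intro a _ b _
      obtain ⟨k, hk⟩ := hs a b
      exact ⟨k, by rw [zpow_natCast]; exact hk⟩
  have hcard : (Finset.univ : Finset C.verts).card = n := by
    rw [Finset.card_univ, ← Nat.card_eq_fintype_card, hn]
  have hmod : ∀ a b : ℕ, (s ^ a) v₀ = (s ^ b) v₀ ↔ a ≡ b [MOD n] := by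
    intro a b
    rw [hcy.pow_apply_eq_pow_apply (Finset.mem_univ v₀), hcard]
  refine ⟨fun i => ((s ^ i.val) v₀ : C.verts), ?_, ?_, ?_⟩
  · intro a b hab
    have h1 := (hmod a.val b.val).1 (Subtype.ext hab)
    rw [Nat.ModEq, Nat.mod_eq_of_lt a.isLt, Nat.mod_eq_of_lt b.isLt] at h1
    exact Fin.ext h1
  · ext w
    constructor
    · rintro ⟨i, rfl⟩
      exact ((s ^ i.val) v₀).2
    · intro hw
      obtain ⟨k, hk⟩ := hs v₀ ⟨w, hw⟩
      have hn0 : 0 < n := Nat.pos_of_ne_zero (NeZero.ne n)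
      refine ⟨⟨k % n, Nat.mod_lt _ hn0⟩, ?_⟩
      have h1 : (s ^ (k % n)) v₀ = (s ^ k) v₀ := (hmod _ _).2 (Nat.mod_modEq k n)
      show (((s ^ (k % n)) v₀ : C.verts) : W) = w
      rw [h1, hk]
  · intro i
    rw [hadj]
    left
    rw [← Equiv.Perm.mul_apply, ← pow_succ', hmod]
    rcases fin_succ i with ⟨h1, h2⟩ | ⟨h1, h2⟩
    · rw [h2]
    · rw [h2, h1, Nat.modEq_zero_iff_dvd]

/-- Basic facts on the matching. -/
lemma matching_facts (M C₁ C₂ : G.Subgraph) (h : IsPermutationGraph G M C₁ C₂) :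
    ∃ m : W → W, (∀ v, M.Adj v (m v)) ∧ (∀ v w, M.Adj v w → w = m v) ∧ (∀ v, m (m v) = v) ∧
      (∀ v, v ∈ C₁.verts → v ∉ C₂.verts) ∧ (∀ v, v ∉ C₁.verts → v ∈ C₂.verts) ∧
      (∀ v, v ∈ C₁.verts → m v ∈ C₂.verts) ∧ (∀ v, v ∈ C₂.verts → m v ∈ C₁.verts) := by
  have hM : ∀ v, ∃! w, M.Adj v w := fun v => h.matching.1 (h.matching.2 v)
  choose m hm hmu using hM
  have hnotboth : ∀ v, v ∈ C₁.verts → v ∉ C₂.verts := fun v h1 h2 =>
    Set.disjoint_left.1 h.disjoint h1 h2
  have hall : ∀ v, v ∉ C₁.verts → v ∈ C₂.verts := by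
    intro v hv
    have h3 := h.cubic v
    obtain ⟨u, hu, hum⟩ : ∃ u ∈ G.neighborSet v, u ≠ m v := by
      apply Set.exists_ne_of_one_lt_ncard
      rw [h3]; norm_num
    have h4 : ¬ M.Adj v u := fun h5 => hum (hmu v u h5)
    rcases (h.union v u).1 ⟨hu, h4⟩ with h5 | h5
    · exact absurd h5.fst_mem hv
    · exact h5.fst_mem
  refine ⟨m, hm, fun v w hvw => hmu v w hvw, fun v => (hmu (m v) v (hm v).symm).symm,
    hnotboth, hall, ?_, ?_⟩
  · intro v hv
    apply hall
    intro hv'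
    have := h.chordless₁ hv hv' (hm v).adj_sub
    exact ((h.union _ _).2 (Or.inl this)).2 (hm v)
  · intro v hv
    by_contra hv'
    have := h.chordless₂ hv (hall _ hv') (hm v).adj_sub
    exact ((h.union _ _).2 (Or.inr this)).2 (hm v)

/-- Every permutation graph has a labelling. -/
theorem exists_labelling [Finite W] (M C₁ C₂ : G.Subgraph) (h : IsPermutationGraph G M C₁ C₂) :
    ∃ (n : ℕ) (_ : NeZero n) (x y : Fin n → W) (π : Equiv.Perm (Fin n)),
      IsLabelling M C₁ C₂ x y π := by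
  classical
  obtain ⟨m, hm, hmu, hmm, -, -, hm12, hm21⟩ := matching_facts M C₁ C₂ h
  have hne : Nonempty C₁.verts := h.circuit₁.1.coe.nonempty
  have hn0 : Nat.card C₁.verts ≠ 0 := Nat.card_pos.ne'
  let φ : C₁.verts ≃ C₂.verts :=
    ⟨fun v => ⟨m v, hm12 _ v.2⟩, fun v => ⟨m v, hm21 _ v.2⟩,
      fun v => Subtype.ext (hmm _), fun v => Subtype.ext (hmm _)⟩
  obtain ⟨n, hn⟩ : ∃ n, n = Nat.card C₁.verts := ⟨_, rfl⟩
  have inst : NeZero n := ⟨hn ▸ hn0⟩
  obtain ⟨x, hx1, hx2, hx3⟩ := exists_listing h.circuit₁ n hn.symm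
  obtain ⟨y, hy1, hy2, hy3⟩ := exists_listing h.circuit₂ n
    (by rw [hn]; exact Nat.card_congr φ.symm)
  have hex : ∀ i, ∃ j, y j = m (x i) := by
    intro i
    have h1 : x i ∈ C₁.verts := by rw [← hx2]; exact ⟨i, rfl⟩
    have h2 := hm12 _ h1
    rw [← hy2] at h2
    exact h2
  choose p hp using hex
  have hpinj : Function.Injective p := by
    intro a b hab
    apply hx1
    have h1 : m (x a) = m (x b) := by rw [← hp, ← hp, hab]
    rw [← hmm (x a), h1, hmm]
  refine ⟨n, inst, x, y, Equiv.ofBijective p (Finite.injective_iff_bijective.1 hpinj),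
    hx1, hy1, hx2, hy2, hx3, hy3, fun i => ?_⟩
  show M.Adj (x i) (y (p i))
  rw [hp]
  exact hm _

/-- Adjacency in a listed circuit. -/
lemma listed_adj {C : G.Subgraph} (hC : IsCircuit C) {n : ℕ} [NeZero n] (x : Fin n → W)
    (hx : Function.Injective x) (hr : Set.range x = C.verts)
    (hadj : ∀ i, C.Adj (x i) (x (i + 1))) :
    3 ≤ n ∧ ∀ i j, C.Adj (x i) (x j) ↔ (i + 1 = j ∨ j + 1 = i) := by
  have hmem : ∀ i, x i ∈ C.verts := fun i => by rw [← hr]; exact ⟨i, rfl⟩
  have h3 : 3 ≤ n := by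
    by_contra hlt
    have h1 := hC.2 (x 0) (hmem 0)
    obtain ⟨a, b, hab, hset⟩ := Set.ncard_eq_two.1 h1
    have ha : C.Adj (x 0) a := by
      have : a ∈ C.neighborSet (x 0) := by rw [hset]; simp
      exact this
    have hb : C.Adj (x 0) b := by
      have : b ∈ C.neighborSet (x 0) := by rw [hset]; simp
      exact this
    obtain ⟨i, rfl⟩ : a ∈ Set.range x := by rw [hr]; exact ha.snd_mem
    obtain ⟨j, rfl⟩ : b ∈ Set.range x := by rw [hr]; exact hb.snd_mem
    have hi : (0 : Fin n) ≠ i := fun h => ha.ne (by rw [← h])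
    have hj : (0 : Fin n) ≠ j := fun h => hb.ne (by rw [← h])
    have hij : i ≠ j := fun h => hab (by rw [h])
    have h5 : (0 : Fin n).val = 0 := rfl
    have h6 : (0 : Fin n).val ≠ i.val := fun h => hi (Fin.ext h)
    have h7 : (0 : Fin n).val ≠ j.val := fun h => hj (Fin.ext h)
    have h8 : i.val ≠ j.val := fun h => hij (Fin.ext h)
    have := i.isLt
    have := j.isLt
    omega
  refine ⟨h3, ?_⟩
  have hne : ∀ i : Fin n, i + 1 ≠ i - 1 := by
    intro i h
    have h1 : (i - 1) + 1 + 1 = i - 1 := by rw [sub_add_cancel]; exact h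
    have h2 := fin_succ (i - 1)
    have h3 := fin_succ (i - 1 + 1)
    rw [h1] at h3
    omega
  intro i j
  have hset : C.neighborSet (x i) = {x (i + 1), x (i - 1)} := by
    symm
    apply Set.eq_of_subset_of_ncard_le
    · rintro w (rfl | rfl)
      · exact hadj i
      · have := (hadj (i - 1)).symm
        rw [sub_add_cancel] at this
        exact this
    · rw [hC.2 _ (hmem i), Set.ncard_pair]
      intro h
      exact hne i (hx h)
    · apply Set.finite_of_ncard_ne_zero
      rw [hC.2 _ (hmem i)]; norm_num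
  have h4 : C.Adj (x i) (x j) ↔ x j ∈ C.neighborSet (x i) := Iff.rfl
  rw [h4, hset, Set.mem_insert_iff, Set.mem_singleton_iff, hx.eq_iff, hx.eq_iff]
  constructor
  · rintro (h | h)
    · left; exact h.symm
    · right; rw [h, sub_add_cancel]
  · rintro (h | h)
    · left; exact h.symm
    · right; rw [← h, add_sub_cancel_right]

theorem cover_of_SS [Finite W] (M C₁ C₂ : G.Subgraph) (h : IsPermutationGraph G M C₁ C₂)
    {n : ℕ} [NeZero n] (x y : Fin n → W) (π : Equiv.Perm (Fin n))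
    (hlab : IsLabelling M C₁ C₂ x y π) (hS : altCycleSum (sigma π) ≠ 0) :
    HasFaithfulCircuitCover G (weight M) := by
  classical
  obtain ⟨m, hm, hmu, hmm, hnot, hall, hm12, hm21⟩ := matching_facts M C₁ C₂ h
  obtain ⟨h3, hx⟩ := listed_adj h.circuit₁ x hlab.x_inj hlab.range_x hlab.adj_x
  obtain ⟨-, hy⟩ := listed_adj h.circuit₂ y hlab.y_inj hlab.range_y hlab.adj_y
  have hxm : ∀ i, x i ∈ C₁.verts := fun i => by rw [← hlab.range_x]; exact ⟨i, rfl⟩
  have hym : ∀ i, y i ∈ C₂.verts := fun i => by rw [← hlab.range_y]; exact ⟨i, rfl⟩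
  have hmx : ∀ i, m (x i) = y (π i) := fun i => (hmu _ _ (hlab.matched i)).symm
  obtain ⟨q, inst, f, hf1, hf2⟩ := exists_colouring (sigma π) hS
  have hσ2 : ∀ i v, sigma π i (sigma π i v) ≠ v := by
    have key : ∀ v : Fin n, v + 1 + 1 ≠ v := by
      intro v hv
      have h1 := fin_succ v
      have h2 := fin_succ (v + 1)
      rw [hv] at h2
      omega
    intro i v
    cases i
    · rw [sigma_false, sigma_false]
      intro h1
      rw [Equiv.symm_apply_eq, Equiv.apply_symm_apply] at h1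
      exact key _ h1
    · exact key v
  have hgood : Good (sigma π) f := ⟨hf1, hf2, hσ2⟩
  let Q : Bool × Fin n → W := fun a => if a.1 = true then x a.2 else y (π a.2)
  have Q1 : ∀ v, Q (true, v) = x v := fun v => rfl
  have Q2 : ∀ v, Q (false, v) = y (π v) := fun v => rfl
  have hQ : Function.Bijective Q := by
    constructor
    · rintro ⟨i, v⟩ ⟨j, w⟩ hab
      cases i <;> cases j
      · rw [Q2, Q2] at hab
        rw [π.injective (hlab.y_inj hab)]
      · rw [Q2, Q1] at hab
        exact absurd (hab ▸ hym (π v)) (hnot _ (hxm w))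
      · rw [Q1, Q2] at hab
        exact absurd (hab.symm ▸ hym (π w)) (hnot _ (hxm v))
      · rw [Q1, Q1] at hab
        rw [hlab.x_inj hab]
    · intro w
      by_cases hw : w ∈ C₁.verts
      · rw [← hlab.range_x] at hw
        obtain ⟨i, rfl⟩ := hw
        exact ⟨(true, i), rfl⟩
      · have hw2 := hall w hw
        rw [← hlab.range_y] at hw2
        obtain ⟨i, rfl⟩ := hw2
        refine ⟨(false, π.symm i), ?_⟩
        rw [Q2, Equiv.apply_symm_apply]
  let e : Bool × Fin n ≃ W := Equiv.ofBijective Q hQ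
  have he : ∀ a, e a = Q a := fun a => rfl
  -- adjacency
  have hMadj : ∀ v w, M.Adj (x v) (y (π w)) ↔ v = w := by
    intro v w
    constructor
    · intro h1
      have := hmu _ _ h1
      rw [hmx] at this
      exact (π.injective (hlab.y_inj this)).symm
    · rintro rfl; exact hlab.matched v
  have hxy : ∀ v w, G.Adj (x v) (y (π w)) ↔ v = w := by
    intro v w
    rw [← hMadj]
    refine ⟨fun h6 => ?_, fun h6 => h6.adj_sub⟩
    by_contra h7
    rcases (h.union _ _).1 ⟨h6, h7⟩ with h8 | h8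
    · exact hnot _ h8.snd_mem (hym _)
    · exact hnot _ (hxm _) h8.fst_mem
  have hadj : ∀ i v j w, G.Adj (Q (i, v)) (Q (j, w)) ↔
      (i = j ∧ (sigma π i v = w ∨ sigma π i w = v)) ∨ (i ≠ j ∧ v = w) := by
    intro i v j w
    cases i <;> cases j
    · rw [Q2, Q2]
      have h5 : G.Adj (y (π v)) (y (π w)) ↔ C₂.Adj (y (π v)) (y (π w)) :=
        ⟨fun h6 => h.chordless₂ (hym _) (hym _) h6, fun h6 => h6.adj_sub⟩
      rw [h5, hy, sigma_false, sigma_false, Equiv.symm_apply_eq, Equiv.symm_apply_eq]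
      simp
    · rw [Q2, Q1, G.adj_comm, hxy]
      simp [eq_comm]
    · rw [Q1, Q2, hxy]
      simp
    · rw [Q1, Q1]
      have h5 : G.Adj (x v) (x w) ↔ C₁.Adj (x v) (x w) :=
        ⟨fun h6 => h.chordless₁ (hxm _) (hxm _) h6, fun h6 => h6.adj_sub⟩
      rw [h5, hx, sigma_true, sigma_true]
      simp
  have hinv : ∀ a, Q (e.symm a) = a := fun a => by rw [← he]; exact e.apply_symm_apply a
  refine cover_of_good (P := e.symm) e.symm.bijective hgood (weight M) ?_ ?_ ?_
  · intro a b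
    have h6 := hadj (e.symm a).1 (e.symm a).2 (e.symm b).1 (e.symm b).2
    rw [Prod.mk.eta, Prod.mk.eta, hinv, hinv] at h6
    exact h6
  · intro a b hab hPab
    obtain ⟨⟨i, v⟩, rfl⟩ := hQ.2 a
    obtain ⟨⟨j, w⟩, rfl⟩ := hQ.2 b
    have h7 : ∀ a, e.symm (Q a) = a := fun a => by rw [← he]; exact e.symm_apply_apply a
    rw [h7, h7] at hPab
    simp only at hPab
    subst hPab
    unfold weight
    rw [if_neg]
    rw [SimpleGraph.Subgraph.mem_edgeSet]
    cases i
    · exact ((h.union _ _).2 (Or.inr (h.chordless₂ (hym _) (hym _) hab))).2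
    · exact ((h.union _ _).2 (Or.inl (h.chordless₁ (hxm _) (hxm _) hab))).2
  · intro a b hab hPab
    obtain ⟨⟨i, v⟩, rfl⟩ := hQ.2 a
    obtain ⟨⟨j, w⟩, rfl⟩ := hQ.2 b
    have h7 : ∀ a, e.symm (Q a) = a := fun a => by rw [← he]; exact e.symm_apply_apply a
    rw [h7, h7] at hPab
    simp only at hPab
    unfold weight
    rw [if_pos]
    rw [SimpleGraph.Subgraph.mem_edgeSet]
    rw [hadj] at hab
    have hvw : v = w := by tauto
    subst hvw
    cases i <;> cases j
    · exact absurd rfl hPab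
    · exact ((hMadj v v).2 rfl).symm
    · exact (hMadj v v).2 rfl
    · exact absurd rfl hPab

/-- **Necessary conditions for contra pairs.** -/
theorem contra_conditions [Finite W] (M C₁ C₂ : G.Subgraph) (h : IsPermutationGraph G M C₁ C₂)
    {n : ℕ} [NeZero n] (x y : Fin n → W) (π : Equiv.Perm (Fin n))
    (hlab : IsLabelling M C₁ C₂ x y π) (hno : ¬ HasFaithfulCircuitCover G (weight M)) :
    n % 4 = 1 ∧ evenTriples π % 4 = (n / 4) % 4 ∧ altCycleSum (sigma π) = 0 := by
  have h0 : altCycleSum (sigma π) = 0 := by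
    by_contra hS
    exact hno (cover_of_SS M C₁ C₂ h x y π hlab hS)
  have h1 : n % 4 = 1 := by
    by_contra hn
    exact SS_ne_zero_of_mod_four π hn h0
  refine ⟨h1, ?_, h0⟩
  by_contra ht
  exact SS_ne_zero_of_triples π h1 ht h0

end Contra2
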