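import Pool.Agent.Helper310.Contra2.Patt

/-!
# The parity of the number of even triples is the sign
-/

open Finset

namespace Contra2

section

variable {n : ℕ} (s : Fin n → Fin n → ℤˣ)

lemma prod_triples_one :
    ∏ i : Fin n, ∏ j ∈ Ioi i, ∏ _k ∈ Ioi j, s i j =
      ∏ i : Fin n, ∏ j ∈ Ioi i, s i j ^ (n - 1 - j) := by
  apply prod_congr rfl; intro i _
  apply prod_congr rfl; intro j _
  rw [prod_const, Fin.card_Ioi]

lemma prod_triples_two :
    ∏ i : Fin n, ∏ j ∈ Ioi i, ∏ k ∈ Ioi j, s j k = ∏ j : Fin n, ∏ k ∈ Ioi j, s j k ^ (j : ℕ) := by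
  rw [Finset.prod_comm' (t' := univ) (s' := fun j => Iio j) (by
    intro x y; simp)]
  apply prod_congr rfl; intro j _
  rw [prod_const, Fin.card_Iio, prod_pow]

lemma prod_triples_three :
    ∏ i : Fin n, ∏ j ∈ Ioi i, ∏ k ∈ Ioi j, s i k =
      ∏ i : Fin n, ∏ k ∈ Ioi i, s i k ^ ((k : ℕ) - i - 1) := by
  apply prod_congr rfl; intro i _
  rw [Finset.prod_comm' (t' := Ioi i) (s' := fun k => Ioo i k) (by
    intro x y
    simp only [mem_Ioi, mem_Ioo]
    constructor
    · rintro ⟨h1, h2⟩; exact ⟨⟨h1, h2⟩, h1.trans h2⟩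
    · rintro ⟨⟨h1, h2⟩, -⟩; exact ⟨h1, h2⟩)]
  apply prod_congr rfl; intro k _
  rw [prod_const, Fin.card_Ioo]

lemma prod_triples :
    ∏ i : Fin n, ∏ j ∈ Ioi i, ∏ k ∈ Ioi j, (s i j * s j k * s i k) =
      (∏ i : Fin n, ∏ j ∈ Ioi i, s i j) ^ (n - 2) := by
  simp only [prod_mul_distrib]
  rw [prod_triples_one, prod_triples_two, prod_triples_three, ← prod_mul_distrib,
    ← prod_mul_distrib, ← prod_pow]
  apply prod_congr rfl; intro i _
  rw [← prod_mul_distrib, ← prod_mul_distrib, ← prod_pow]
  apply prod_congr rfl; intro j hj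
  rw [← pow_add, ← pow_add]
  congr 1
  have h1 : i.val < j.val := by simpa using hj
  have h2 := j.isLt
  omega

end

variable {n : ℕ} [NeZero n]

omit [NeZero n] in
lemma sgn_triple (π : Equiv.Perm (Fin n)) {i j k : Fin n} (hij : i < j) (hjk : j < k) :
    ((if π i < π j then 1 else -1) * (if π j < π k then 1 else -1) *
      (if π i < π k then 1 else -1) : ℤˣ) = if CI (π i) (π j) (π k) then 1 else -1 := by
  have n1 : (π i).val ≠ (π j).val := fun h3 => by
    have := π.injective (Fin.ext h3); rw [this] at hij; exact lt_irrefl _ hij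
  have n2 : (π j).val ≠ (π k).val := fun h3 => by
    have := π.injective (Fin.ext h3); rw [this] at hjk; exact lt_irrefl _ hjk
  have n3 : (π i).val ≠ (π k).val := fun h3 => by
    have := π.injective (Fin.ext h3); rw [this] at hij; exact lt_asymm hij hjk
  unfold CI
  simp only [Fin.lt_def]
  by_cases h1 : (π i).val < (π j).val <;> by_cases h2 : (π j).val < (π k).val <;>
    by_cases h3 : (π i).val < (π k).val
  · rw [if_pos h1, if_pos h2, if_pos h3, if_pos (by omega)]; rfl
  · omega
  · rw [if_pos h1, if_neg h2, if_pos h3, if_neg (by omega)]; rfl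
  · rw [if_pos h1, if_neg h2, if_neg h3, if_pos (by omega)]; rfl
  · rw [if_neg h1, if_pos h2, if_pos h3, if_neg (by omega)]; rfl
  · rw [if_neg h1, if_pos h2, if_neg h3, if_pos (by omega)]; rfl
  · omega
  · rw [if_neg h1, if_neg h2, if_neg h3, if_neg (by omega)]; rfl

/-- all increasing triples -/
def triples (n : ℕ) : Finset (Fin n × Fin n × Fin n) :=
  univ.filter (fun t => t.1 < t.2.1 ∧ t.2.1 < t.2.2)

omit [NeZero n] in
lemma prod_nested {M : Type*} [CommMonoid M] (F : Fin n → Fin n → Fin n → M) :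
    ∏ i : Fin n, ∏ j ∈ Ioi i, ∏ k ∈ Ioi j, F i j k = ∏ t ∈ triples n, F t.1 t.2.1 t.2.2 := by
  unfold triples
  rw [prod_filter, Fintype.prod_prod_type]
  apply prod_congr rfl; intro i _
  rw [Fintype.prod_prod_type]
  have h1 : Ioi i = univ.filter (fun j => i < j) := by ext; simp
  rw [h1, prod_filter]
  apply prod_congr rfl; intro j _
  by_cases hij : i < j
  · rw [if_pos hij]
    have h2 : Ioi j = univ.filter (fun k => j < k) := by ext; simp
    rw [h2, prod_filter]
    apply prod_congr rfl; intro k _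
    simp [hij]
  · rw [if_neg hij]
    symm
    apply prod_eq_one
    intro k _
    simp [hij]

omit [NeZero n] in
lemma card_triples_choose : (triples n).card = n.choose 3 := by
  have h0 : n.choose 3 = (powersetCard 3 (univ : Finset (Fin n))).card := by
    rw [card_powersetCard, card_univ, Fintype.card_fin]
  rw [h0]
  apply Finset.card_bij (fun (t : Fin n × Fin n × Fin n) _ => ({t.1, t.2.1, t.2.2} : Finset (Fin n)))
  · rintro ⟨i, j, k⟩ ht
    simp only [triples, mem_filter, mem_univ, true_and] at ht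
    obtain ⟨h1, h2⟩ := ht
    rw [mem_powersetCard]
    exact ⟨subset_univ _, Finset.card_eq_three.2 ⟨i, j, k, h1.ne, (h1.trans h2).ne, h2.ne, rfl⟩⟩
  · rintro ⟨i, j, k⟩ ht ⟨i', j', k'⟩ ht' heq
    simp only [triples, mem_filter, mem_univ, true_and] at ht ht' heq
    obtain ⟨h1, h2⟩ := ht
    obtain ⟨h1', h2'⟩ := ht'
    have m1 : i ∈ ({i', j', k'} : Finset (Fin n)) := heq ▸ (by simp)
    have m2 : j ∈ ({i', j', k'} : Finset (Fin n)) := heq ▸ (by simp)
    have m3 : k ∈ ({i', j', k'} : Finset (Fin n)) := heq ▸ (by simp)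
    simp only [mem_insert, mem_singleton, Fin.ext_iff] at m1 m2 m3
    simp only [Fin.lt_def] at h1 h2 h1' h2'
    simp only [Prod.mk.injEq, Fin.ext_iff]
    omega
  · intro U hU
    rw [mem_powersetCard] at hU
    obtain ⟨-, hU3⟩ := hU
    let e := U.orderEmbOfFin hU3
    have hlt1 : e 0 < e 1 := e.strictMono (by decide)
    have hlt2 : e 1 < e 2 := e.strictMono (by decide)
    have hUeq : U = {e 0, e 1, e 2} := by
      symm
      apply Finset.eq_of_subset_of_card_le
      · intro x hx
        simp only [mem_insert, mem_singleton] at hx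
        rcases hx with rfl | rfl | rfl <;> exact U.orderEmbOfFin_mem hU3 _
      · rw [hU3, Finset.card_eq_three.2
          ⟨e 0, e 1, e 2, hlt1.ne, (hlt1.trans hlt2).ne, hlt2.ne, rfl⟩]
    refine ⟨(e 0, e 1, e 2), ?_, hUeq.symm⟩
    simp only [triples, mem_filter, mem_univ, true_and]
    exact ⟨hlt1, hlt2⟩

theorem sign_pow (π : Equiv.Perm (Fin n)) :
    π.sign ^ (n - 2) = (-1) ^ ((triples n).card - evenTriples π) := by
  rw [Equiv.Perm.sign_eq_prod_prod_Ioi, ← prod_triples, prod_nested]
  have h1 : ∀ t ∈ triples n, ((if π t.1 < π t.2.1 then 1 else -1) *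
      (if π t.2.1 < π t.2.2 then 1 else -1) * (if π t.1 < π t.2.2 then 1 else -1) : ℤˣ) =
      if CI (π t.1) (π t.2.1) (π t.2.2) then 1 else -1 := by
    intro t ht
    simp only [triples, mem_filter, mem_univ, true_and] at ht
    exact sgn_triple π ht.1 ht.2
  rw [prod_congr rfl h1, prod_ite, prod_const_one, one_mul, prod_const]
  congr 1
  have h2 := Finset.card_filter_add_card_filter_not (s := triples n)
    (fun t => CI (π t.1) (π t.2.1) (π t.2.2))
  have h3 : (filter (fun t => CI (π t.1) (π t.2.1) (π t.2.2)) (triples n)).card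
      = evenTriples π := by
    unfold evenTriples triples
    rw [filter_filter]
    congr 1
    ext t
    simp only [mem_filter, mem_univ, true_and]
    tauto
  omega

/-- For `n ≡ 1 (mod 4)` the sign of `π` is the parity of the number of even triples. -/
theorem sign_eq (π : Equiv.Perm (Fin n)) (hn : n % 4 = 1) :
    π.sign = (-1) ^ evenTriples π := by
  obtain ⟨m, hm⟩ : ∃ m, n = 4 * m + 1 := ⟨n / 4, by omega⟩
  have hle : evenTriples π ≤ (triples n).card := by
    unfold evenTriples triples
    apply card_le_card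
    intro t ht
    simp only [mem_filter, mem_univ, true_and] at ht ⊢
    exact ⟨ht.1, ht.2.1⟩
  have heven : 2 ∣ (triples n).card := by
    rw [card_triples_choose]
    have h1 : n.descFactorial 3 = 6 * n.choose 3 := Nat.descFactorial_eq_factorial_mul_choose n 3
    have h2 : n.descFactorial 3 = (n - 2) * ((n - 1) * n) := by
      simp [Nat.descFactorial_succ]
    rw [h2] at h1
    have h3 : n - 1 = 4 * m := by omega
    rw [h3] at h1
    have h4 : 4 * ((n - 2) * (m * n)) = 6 * n.choose 3 := by rw [← h1]; ring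
    generalize (n - 2) * (m * n) = z at h4
    omega
  have h := sign_pow π
  rcases Nat.eq_zero_or_pos m with h0 | h0
  · -- `n = 1`
    subst h0
    have hn1 : n = 1 := by omega
    subst hn1
    have h5 : π = 1 := Subsingleton.elim _ _
    have h6 : (triples 1).card = 0 := by decide
    have h7 : evenTriples π = 0 := by omega
    rw [h7, h5]; simp
  · have hodd : π.sign ^ (n - 2) = π.sign := by
      obtain ⟨r, hr⟩ : ∃ r, n - 2 = 2 * r + 1 := ⟨(n - 3) / 2, by omega⟩
      rw [hr, pow_succ, pow_mul, Int.units_sq, one_pow, one_mul]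
    rw [hodd] at h
    rw [h]
    obtain ⟨r, hr⟩ := heven
    rcases Nat.even_or_odd (evenTriples π) with h8 | h8
    · rw [h8.neg_one_pow]
      apply Even.neg_one_pow
      obtain ⟨a, ha⟩ := h8
      exact ⟨r - a, by omega⟩
    · rw [h8.neg_one_pow]
      apply Odd.neg_one_pow
      obtain ⟨a, ha⟩ := h8
      exact ⟨r - a - 1, by omega⟩

end Contra2
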